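import Pool.Agent.W788.MFP.Site

/-! Parameters and the union bound. -/

set_option autoImplicit false
set_option linter.unusedSectionVars false

open scoped BigOperators
open MeasureTheory

namespace Pool.Agent.W788.MFP.Fin

open Pool.Agent.W788.MFP.Gm Pool.Agent.W788.MFP.Four Pool.Agent.W788.MFP.Dos
open Pool.Agent.W788.MFP.Form
open Pool.Agent.W788.MFP.Ball Pool.Agent.W788.MFP.Crit Pool.Agent.W788.MFP.Cut
open Pool.Agent.W788.MFP.Site
open Pool.Agent.H4R2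
open Pool.Agent.H4R2.LO (Zd)
open Pool.Agent.H695R3.AN (lf lf_inj lf_add lf_sub)

/-- constants -/
noncomputable def DD (d : ℕ) : ℝ := 8 * d * (33 * d) ^ d

noncomputable def κ0 (d : ℕ) : ℝ := 3 * d + 3 + 2 * Real.log (DD d)

noncomputable def AA (d : ℕ) : ℝ := 192 * (2 + 8 * C3) * (κ0 d + 2)

theorem DD_ge (d : ℕ) (hd : 3 ≤ d) : 1 ≤ DD d := by
  have hd3 : (3 : ℝ) ≤ d := by exact_mod_cast hd
  unfold DD
  have h1 : (1 : ℝ) ≤ (33 * d) ^ d := one_le_pow₀ (by linarith)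
  nlinarith

theorem κ0_ge (d : ℕ) (hd : 3 ≤ d) : 12 ≤ κ0 d := by
  have hd3 : (3 : ℝ) ≤ d := by exact_mod_cast hd
  unfold κ0
  have h1 := Real.log_nonneg (DD_ge d hd)
  linarith

theorem AA_ge (d : ℕ) (hd : 3 ≤ d) : 5000 ≤ AA d := by
  have h1 := κ0_ge d hd
  have h2 : 0 ≤ C3 := by unfold C3; norm_num
  unfold AA
  nlinarith

variable {d : ℕ}

theorem tor (hd : 3 ≤ d) (σ ρ δ ℓ : ℝ) (hσ : 0 < σ) (hσ1 : σ ≤ 1 / 2) (hρ : 1 / σ ≤ ρ)
    (hδ : δ = AA d * (σ ^ 2 * Real.log (1 / σ) * Real.log ρ)) (hδ1 : δ ≤ 1 / 2)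
    (hℓ : ℓ = 2 * d / δ) (L : ℕ) [NeZero L] (hL : 4 * ℓ + 4 < L) (hL2 : L ≤ 4 * ℓ + 5) :
    0 < δ ∧ gg δ ≤ (2 + 8 * C3) * (2 * Real.log (1 / σ)) ∧
    ∃ G : Set (T d L → ℝ), MeasurableSet G ∧ (3 * ρ) ^ d * (Γ (T d L)).real Gᶜ ≤ 1 / ρ ∧
      ∀ ξ ∈ G, ∀ (E : ℝ) (v : T d L → ℝ),
        |∑ x, ξ x * v x ^ 2| ≤ 2 * (1 / (4 * σ)) * q (J E δ) v := by
  have hd3 : (3 : ℝ) ≤ d := by exact_mod_cast hd
  have hA := AA_ge d hd
  have hκ := κ0_ge d hd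
  have hC3 : 0 ≤ C3 := by unfold C3; norm_num
  have hL0 : (0 : ℝ) < L := by exact_mod_cast Nat.pos_of_ne_zero (NeZero.ne L)
  obtain ⟨l, hl⟩ : ∃ l, l = Real.log (1 / σ) := ⟨_, rfl⟩
  obtain ⟨Λ, hΛ⟩ : ∃ Λ, Λ = Real.log ρ := ⟨_, rfl⟩
  have hσ2 : 2 ≤ 1 / σ := by
    rw [le_div_iff₀ hσ]
    linarith
  have hl2 : 1 / 2 ≤ l := by
    rw [hl]
    have h1 := Real.log_le_log (by norm_num) hσ2
    have h2 := Real.log_two_gt_d9
    linarith
  have hlΛ : l ≤ Λ := by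
    rw [hl, hΛ]
    exact Real.log_le_log (by positivity) hρ
  have hρ2 : 2 ≤ ρ := hσ2.trans hρ
  have hρ0 : 0 < ρ := by linarith
  rw [← hl, ← hΛ] at hδ
  rw [← hl]
  have hlΛ4 : 1 / 4 ≤ l * Λ := by nlinarith
  have hδσ : σ ^ 2 ≤ δ := by
    rw [hδ]
    have h1 : 1 ≤ AA d * (l * Λ) := by nlinarith
    calc σ ^ 2 = σ ^ 2 * 1 := by ring
      _ ≤ σ ^ 2 * (AA d * (l * Λ)) := by gcongr
      _ = _ := by ring
  have hδ0 : 0 < δ := lt_of_lt_of_le (by positivity) hδσ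
  have hgg : gg δ ≤ (2 + 8 * C3) * (2 * l) := by
    unfold gg
    apply mul_le_mul_of_nonneg_left _ (by linarith)
    have h1 : Real.log (1 / δ) ≤ Real.log ((1 / σ) ^ 2) := by
      apply Real.log_le_log (by positivity)
      rw [one_div_pow]
      exact one_div_le_one_div_of_le (by positivity) hδσ
    rw [Real.log_pow, ← hl] at h1
    exact_mod_cast h1
  refine ⟨hδ0, hgg, ?_⟩
  have hgg0 := gg_pos δ hδ0 hδ1
  have hℓ1 : 0 < ℓ := by rw [hℓ]; positivity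
  have hLδ : 1 / (L : ℝ) ≤ δ := by
    rw [div_le_iff₀ hL0]
    have e1 : δ * ℓ = 2 * d := by
      rw [hℓ]
      field_simp
    have : δ * ℓ ≤ δ * L := by
      apply mul_le_mul_of_nonneg_left _ hδ0.le
      linarith
    linarith
  obtain ⟨p, hp⟩ : ∃ p : ℕ, p = ⌈κ0 d * Λ⌉₊ := ⟨_, rfl⟩
  have hp1 : κ0 d * Λ ≤ p := by
    rw [hp]
    exact Nat.le_ceil _
  have hp2 : (p : ℝ) ≤ (κ0 d + 2) * Λ := by
    have h1 := Nat.ceil_lt_add_one (show 0 ≤ κ0 d * Λ by nlinarith)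
    rw [← hp] at h1
    nlinarith
  have hp0 : p ≠ 0 := by
    intro h0
    rw [h0] at hp1
    push_cast at hp1
    nlinarith
  obtain ⟨G, hG, hP, hb⟩ := formE (d := d) (L := L) hd δ hLδ hδ1 (1 / (4 * σ)) (by positivity)
    p hp0
  refine ⟨G, hG, ?_, hb⟩
  -- the probability
  obtain ⟨X, hX⟩ : ∃ X : ℝ, X = 2 * p * gg δ * δ⁻¹ / (1 / (4 * σ)) ^ 2 := ⟨_, rfl⟩
  rw [← hX] at hP
  have hX0 : 0 ≤ X := by rw [hX]; positivity
  have hX1 : X ≤ 1 / 3 := by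
    have e1 : X = 32 * p * gg δ * σ ^ 2 / δ := by
      rw [hX]
      field_simp
      norm_num
    rw [e1, div_le_iff₀ hδ0]
    have e2 : 32 * p * gg δ * σ ^ 2 ≤
        32 * ((κ0 d + 2) * Λ) * ((2 + 8 * C3) * (2 * l)) * σ ^ 2 := by
      have e3 : 0 ≤ (κ0 d + 2) * Λ := (Nat.cast_nonneg p).trans hp2
      have e4 : 0 ≤ 32 * ((κ0 d + 2) * Λ) := by linarith
      gcongr
    refine e2.trans (le_of_eq ?_)
    rw [hδ]
    unfold AA
    ring
  have hX2 : X ≤ Real.exp (-1) := by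
    have h1 := Real.exp_one_lt_three
    have h2 : (1 : ℝ) / 3 ≤ (Real.exp 1)⁻¹ := by
      rw [one_div]
      exact inv_anti₀ (Real.exp_pos _) h1.le
    rw [Real.exp_neg]
    linarith
  have hXp : X ^ p ≤ (ρ ^ (3 * d + 3) * DD d)⁻¹ := by
    have hD := DD_ge d hd
    have h1 : X ^ p ≤ Real.exp (-(p : ℝ)) := by
      calc X ^ p ≤ (Real.exp (-1)) ^ p := pow_le_pow_left₀ hX0 hX2 p
        _ = _ := by
          rw [← Real.exp_nat_mul]
          congr 1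
          ring
    have h2 : Real.exp (-(p : ℝ)) ≤ Real.exp (-((3 * d + 3) * Λ + Real.log (DD d))) := by
      apply Real.exp_le_exp.2
      have h3 : κ0 d * Λ = (3 * d + 3) * Λ + 2 * Real.log (DD d) * Λ := by
        unfold κ0
        ring
      have h4 := Real.log_nonneg hD
      have h5 : Real.log (DD d) * 1 ≤ Real.log (DD d) * (2 * Λ) := by
        apply mul_le_mul_of_nonneg_left _ h4
        linarith
      linarith
    refine h1.trans (h2.trans (le_of_eq ?_))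
    rw [Real.exp_neg, Real.exp_add, Real.exp_log (by linarith), hΛ]
    congr 2
    have h6 : ((3 : ℝ) * d + 3) * Real.log ρ = ((3 * d + 3 : ℕ) : ℝ) * Real.log ρ := by
      push_cast
      ring
    rw [h6, Real.exp_nat_mul, Real.exp_log hρ0]
  have hδρ : 1 / δ ≤ ρ ^ 2 := by
    have h1 : 1 / δ ≤ 1 / σ ^ 2 := one_div_le_one_div_of_le (by positivity) hδσ
    have h2 : 1 / σ ^ 2 = (1 / σ) ^ 2 := by rw [one_div_pow]
    have h3 : (1 / σ) ^ 2 ≤ ρ ^ 2 := pow_le_pow_left₀ (by positivity) hρ 2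
    linarith
  have hLρ : (L : ℝ) ≤ 11 * d * ρ ^ 2 := by
    have h1 : ℓ = 2 * d * (1 / δ) := by rw [hℓ]; ring
    have h2 : 2 ≤ 1 / δ := by
      rw [le_div_iff₀ hδ0]
      linarith
    have h3 : (L : ℝ) ≤ 11 * d * (1 / δ) := by nlinarith
    refine h3.trans ?_
    gcongr
  have hD0 : 0 < DD d := by linarith [DD_ge d hd]
  calc (3 * ρ) ^ d * (Γ (T d L)).real Gᶜ ≤
      (3 * ρ) ^ d * ((8 * d * (1 / δ)) * (X ^ p * NN d L)) := by
        apply mul_le_mul_of_nonneg_left _ (by positivity)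
        refine hP.trans (le_of_eq ?_)
        ring
    _ ≤ (3 * ρ) ^ d * ((8 * d * ρ ^ 2) *
        ((ρ ^ (3 * d + 3) * DD d)⁻¹ * (11 * d * ρ ^ 2) ^ d)) := by
        unfold NN
        gcongr
    _ = 1 / ρ := by
      have e1 : (3 * ρ) ^ d * ((8 * d * ρ ^ 2) *
        ((ρ ^ (3 * d + 3) * DD d)⁻¹ * (11 * d * ρ ^ 2) ^ d)) =
        (8 * d * (33 * d) ^ d) * (ρ ^ d * ρ ^ 2 * (ρ ^ 2) ^ d) / (ρ ^ (3 * d + 3) * DD d) := by
        rw [mul_pow, mul_pow (11 * (d : ℝ)) (ρ ^ 2) d]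
        have e2 : (33 * (d : ℝ)) ^ d = 3 ^ d * (11 * d) ^ d := by
          rw [← mul_pow]
          congr 1
          ring
        rw [e2]
        field_simp
      have e3 : ρ ^ (3 * d + 3) = (ρ ^ d * ρ ^ 2 * (ρ ^ 2) ^ d) * ρ := by
        ring
      rw [e1, e3]
      unfold DD at hD0 ⊢
      field_simp

/-- the lattice event -/
theorem main (hd : 3 ≤ d) (σ ρ δ : ℝ) (hσ : 0 < σ) (hσ1 : σ ≤ 1 / 2) (hρ : 1 / σ ≤ ρ)
    (hδ : δ = AA d * (σ ^ 2 * Real.log (1 / σ) * Real.log ρ)) (hδ1 : δ ≤ 1 / 2) :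
    ∃ G : Set (Zd d → ℝ), MeasurableSet G ∧
      1 - 1 / ρ ≤ (Measure.infinitePi fun _ : Zd d => γ).real G ∧
      ∀ ξ ∈ G, ∀ (E : ℝ) (u : Zd d → ℂ), (Summable fun x => ‖u x‖ ^ 2) →
        (∀ x, ∑ i, (u (x + Pi.single i 1) + u (x - Pi.single i 1)) +
          ((σ * ξ x : ℝ) : ℂ) * u x = (E : ℂ) * u x) →
        ∀ a : Zd d, ‖a‖ ≤ ρ →
        ‖u a‖ ^ 2 ≤ 4 * δ * ((2 + 8 * C3) * (2 * Real.log (1 / σ))) * ∑' x, ‖u x‖ ^ 2 ∧
        ∀ θ R : ℝ, 0 < θ → θ ≤ 1 → (∀ j : ℕ, j ≤ d → θ ≤ |E - (2 * d - 4 * j)|) → 1 ≤ R →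
          ∀ A : Finset (Zd d), (∀ x ∈ A, ‖x - a‖ ≤ R) → ∑ x ∈ A, ‖u x‖ ^ 2 ≤
            28 * d ^ 2 * (d + 1) / θ * Real.sqrt (R * δ) * ∑' x, ‖u x‖ ^ 2 := by
  have hσ2 : 2 ≤ 1 / σ := by
    rw [le_div_iff₀ hσ]
    linarith
  obtain ⟨ℓ, hℓ⟩ : ∃ ℓ, ℓ = 2 * d / δ := ⟨_, rfl⟩
  obtain ⟨L, hLdef⟩ : ∃ L : ℕ, L = ⌊4 * ℓ + 4⌋₊ + 1 := ⟨_, rfl⟩
  have hLne : NeZero L := ⟨by omega⟩
  have hδ0' : 0 ≤ δ := by
    rw [hδ]
    have := AA_ge d hd
    have h1 := Real.log_nonneg (show 1 ≤ 1 / σ by linarith)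
    have h2 := Real.log_nonneg (show 1 ≤ ρ by linarith)
    positivity
  have hℓ0 : 0 ≤ ℓ := by rw [hℓ]; positivity
  have hL : 4 * ℓ + 4 < L := by
    rw [hLdef]
    push_cast
    exact Nat.lt_floor_add_one _
  have hL2 : L ≤ 4 * ℓ + 5 := by
    rw [hLdef]
    push_cast
    have := Nat.floor_le (show 0 ≤ 4 * ℓ + 4 by linarith)
    linarith
  obtain ⟨hδ0, hgg, G, hG, hP, hb⟩ := tor hd σ ρ δ ℓ hσ hσ1 hρ hδ hδ1 hℓ L hL hL2
  have hgg0 := gg_pos δ hδ0 hδ1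
  set B : Finset (Zd d) := LO.bx (0 : Zd d) ⌊ρ⌋₊ with hB
  set R : Zd d → (Zd d → ℝ) → (T d L → ℝ) := fun a ω y => ω (lf y + a) with hR
  have hRm : ∀ a, Measurable (R a) := fun a => measurable_pi_iff.2 fun y => measurable_pi_apply _
  have hPa : ∀ a, (Measure.infinitePi fun _ : Zd d => γ).real (R a ⁻¹' G)ᶜ =
      (Γ (T d L)).real Gᶜ := by
    intro a
    have h1 : (Measure.infinitePi fun _ : Zd d => γ).real (R a ⁻¹' Gᶜ) =
        (Measure.pi fun _ : T d L => γ).real Gᶜ := by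
      rw [← Gen3.law_shift (d := d) (L := L) γ a, map_measureReal_apply (hRm a) hG.compl]
    exact h1
  have hm : MeasurableSet (⋂ a ∈ B, R a ⁻¹' G) :=
    Finset.measurableSet_biInter _ fun a _ => hRm a hG
  refine ⟨⋂ a ∈ B, R a ⁻¹' G, hm, ?_, ?_⟩
  · have h2 := probReal_add_probReal_compl (μ := Measure.infinitePi fun _ : Zd d => γ) hm
    have h3 : (Measure.infinitePi fun _ : Zd d => γ).real (⋂ a ∈ B, R a ⁻¹' G)ᶜ ≤
        (3 * ρ) ^ d * (Γ (T d L)).real Gᶜ := by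
      have e1 : (⋂ a ∈ B, R a ⁻¹' G)ᶜ = ⋃ a ∈ B, (R a ⁻¹' G)ᶜ := by
        simp only [Set.compl_iInter]
      rw [e1]
      refine (measureReal_biUnion_finset_le _ _).trans
        ((Finset.sum_le_sum fun a _ => (hPa a).le).trans ?_)
      rw [Finset.sum_const, nsmul_eq_mul, hB, LO.Em.card_bx]
      apply mul_le_mul_of_nonneg_right _ measureReal_nonneg
      push_cast
      apply pow_le_pow_left₀ (by positivity)
      have := Nat.floor_le (show 0 ≤ ρ by linarith)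
      linarith
    linarith
  · intro ξ hξ E u hu heq a ha
    have haB : a ∈ B := Gen3.norm_zd a ρ ha
    have hV : R a ξ ∈ G := Set.mem_iInter₂.1 hξ a haB
    have hsum : ∑' x, ‖u (x + a)‖ ^ 2 = ∑' x, ‖u x‖ ^ 2 := Gen3.tsum_shift u a
    have hu' : Summable fun x => ‖u (x + a)‖ ^ 2 := Gen3.l2_shift u a hu
    obtain ⟨c1, c2⟩ := cplx_site (L := L) hd σ E δ ℓ hδ0 hδ1 hσ hℓ hL (fun x => ξ (x + a))
      (fun x => u (x + a)) hu' (by
        intro x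
        have h1 := heq (x + a)
        have h2 : ∀ i : Fin d, x + Pi.single i 1 + a = x + a + Pi.single i 1 := fun i => by abel
        have h3 : ∀ i : Fin d, x - Pi.single i 1 + a = x + a - Pi.single i 1 := fun i => by abel
        simp only [h2, h3]
        exact h1) (hb _ hV)
    rw [hsum] at c1
    simp only [zero_add] at c1
    constructor
    · refine c1.trans ?_
      gcongr
    · intro θ Rr hθ hθ1 hcrit hRr A hA
      have c3 := c2 θ Rr hθ hθ1 hcrit hRr (A.image fun x => x - a) (by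
        intro x hx
        obtain ⟨y, hy, rfl⟩ := Finset.mem_image.1 hx
        exact hA y hy)
      rw [Finset.sum_image (by
        intro x _ y _ h
        exact sub_left_injective h), hsum] at c3
      simp only [sub_add_cancel] at c3
      exact c3

end Pool.Agent.W788.MFP.Fin
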