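import Pool.Agent.W788.MFP.Gm

/-! Moments and norm bounds for the random matrix `∑ ξ_x w_x w_xᵀ`, Gaussian `ξ`. -/

set_option autoImplicit false
set_option linter.unusedSectionVars false

open scoped BigOperators ENNReal NNReal Matrix
open MeasureTheory ProbabilityTheory

namespace Pool.Agent.W788.MFP.Nck

open Pool.Agent.W788.MFP.Gm (γ Γ)

section det

variable {ι : Type*} [Fintype ι] [DecidableEq ι]

/-- diagonalisation -/
theorem spec (X : Matrix ι ι ℝ) (hX : X.IsHermitian) : ∃ (U : Matrix ι ι ℝ) (l : ι → ℝ),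
    U * Uᵀ = 1 ∧ Uᵀ * U = 1 ∧ X = U * Matrix.diagonal l * Uᵀ := by
  refine ⟨(hX.eigenvectorUnitary : Matrix ι ι ℝ), hX.eigenvalues, ?_, ?_, ?_⟩
  · have := Matrix.mem_unitaryGroup_iff.1 hX.eigenvectorUnitary.2
    rwa [Matrix.star_eq_conjTranspose, Matrix.conjTranspose_eq_transpose_of_trivial] at this
  · have := Matrix.mem_unitaryGroup_iff'.1 hX.eigenvectorUnitary.2
    rwa [Matrix.star_eq_conjTranspose, Matrix.conjTranspose_eq_transpose_of_trivial] at this
  · have := hX.spectral_theorem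
    rw [Unitary.conjStarAlgAut_apply] at this
    conv_lhs => rw [this]
    congr 1

theorem pow_spec (U : Matrix ι ι ℝ) (l : ι → ℝ) (h2 : Uᵀ * U = 1) (h1 : U * Uᵀ = 1) (n : ℕ) :
    (U * Matrix.diagonal l * Uᵀ) ^ n = U * Matrix.diagonal (fun i => l i ^ n) * Uᵀ := by
  induction n with
  | zero => simp [h1]
  | succ n ih =>
    rw [pow_succ, ih]
    calc U * Matrix.diagonal (fun i => l i ^ n) * Uᵀ * (U * Matrix.diagonal l * Uᵀ)
        = U * Matrix.diagonal (fun i => l i ^ n) * (Uᵀ * U) * Matrix.diagonal l * Uᵀ := by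
          simp only [Matrix.mul_assoc]
      _ = U * (Matrix.diagonal (fun i => l i ^ n) * Matrix.diagonal l) * Uᵀ := by
          rw [h2, Matrix.mul_one]
          simp only [Matrix.mul_assoc]
      _ = _ := by
          rw [Matrix.diagonal_mul_diagonal]
          simp only [pow_succ]

/-- the quadratic form of a power -/
theorem form_spec (U : Matrix ι ι ℝ) (l : ι → ℝ) (v : ι → ℝ) :
    v ⬝ᵥ ((U * Matrix.diagonal l * Uᵀ) *ᵥ v) = ∑ i, l i * (Uᵀ *ᵥ v) i ^ 2 := by
  rw [← Matrix.mulVec_mulVec, ← Matrix.mulVec_mulVec, Matrix.dotProduct_mulVec]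
  have : v ᵥ* U = Uᵀ *ᵥ v := by rw [Matrix.mulVec_transpose]
  rw [this]
  unfold dotProduct
  refine Finset.sum_congr rfl fun i _ => ?_
  rw [Matrix.mulVec_diagonal]
  ring

theorem norm_spec (U : Matrix ι ι ℝ) (h1 : U * Uᵀ = 1) (v : ι → ℝ) :
    ∑ i, (Uᵀ *ᵥ v) i ^ 2 = ∑ i, v i ^ 2 := by
  have h := form_spec U (fun _ => 1) v
  have h2 : Matrix.diagonal (fun _ : ι => (1 : ℝ)) = 1 := Matrix.diagonal_one
  rw [h2, Matrix.mul_one, h1, Matrix.one_mulVec] at h
  simp only [one_mul] at h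
  rw [← h]
  unfold dotProduct
  exact Finset.sum_congr rfl fun i _ => by ring

theorem mono_ineq (x y : ℝ) (q r : ℕ) (hr : Even (q + r)) :
    x ^ q * y ^ r + y ^ q * x ^ r ≤ x ^ (q + r) + y ^ (q + r) := by
  have h1 : |x| ^ q * |y| ^ r + |y| ^ q * |x| ^ r ≤ |x| ^ (q + r) + |y| ^ (q + r) := by
    have h2 : 0 ≤ (|x| ^ q - |y| ^ q) * (|x| ^ r - |y| ^ r) := by
      rcases le_total |x| |y| with h | h
      · have h3 := pow_le_pow_left₀ (abs_nonneg x) h q
        have h4 := pow_le_pow_left₀ (abs_nonneg x) h r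
        exact mul_nonneg_of_nonpos_of_nonpos (by linarith) (by linarith)
      · have h3 := pow_le_pow_left₀ (abs_nonneg y) h q
        have h4 := pow_le_pow_left₀ (abs_nonneg y) h r
        exact mul_nonneg (by linarith) (by linarith)
    rw [pow_add, pow_add]
    nlinarith
  have h2 : x ^ (q + r) = |x| ^ (q + r) := by rw [← hr.pow_abs]
  have h3 : y ^ (q + r) = |y| ^ (q + r) := by rw [← hr.pow_abs]
  rw [h2, h3]
  refine le_trans (add_le_add ?_ ?_) h1
  · rw [← abs_pow, ← abs_pow, ← abs_mul]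
    exact le_abs_self _
  · rw [← abs_pow, ← abs_pow, ← abs_mul]
    exact le_abs_self _

/-- the basic inequality for the moments of the spectral measure -/
theorem form_ineq (X : Matrix ι ι ℝ) (hX : X.IsHermitian) (v : ι → ℝ) (q r : ℕ)
    (hr : Even (q + r)) :
    (v ⬝ᵥ ((X ^ q) *ᵥ v)) * (v ⬝ᵥ ((X ^ r) *ᵥ v)) ≤
      (∑ i, v i ^ 2) * (v ⬝ᵥ ((X ^ (q + r)) *ᵥ v)) := by
  obtain ⟨U, l, h1, h2, rfl⟩ := spec X hX
  rw [pow_spec U l h2 h1, pow_spec U l h2 h1, pow_spec U l h2 h1, form_spec, form_spec, form_spec,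
    ← norm_spec U h1 v]
  set p : ι → ℝ := fun i => (Uᵀ *ᵥ v) i ^ 2 with hp
  have hp0 : ∀ i, 0 ≤ p i := fun i => sq_nonneg _
  have e1 : (∑ i, l i ^ q * p i) * (∑ i, l i ^ r * p i) =
      ∑ i, ∑ j, (l i ^ q * l j ^ r) * (p i * p j) := by
    rw [Finset.sum_mul_sum]
    exact Finset.sum_congr rfl fun i _ => Finset.sum_congr rfl fun j _ => by ring
  have e2 : (∑ i, l i ^ q * p i) * (∑ i, l i ^ r * p i) =
      ∑ i, ∑ j, (l j ^ q * l i ^ r) * (p i * p j) := by
    rw [e1, Finset.sum_comm]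
    exact Finset.sum_congr rfl fun i _ => Finset.sum_congr rfl fun j _ => by ring
  have e3 : (∑ i, p i) * (∑ i, l i ^ (q + r) * p i) =
      ∑ i, ∑ j, l j ^ (q + r) * (p i * p j) := by
    rw [Finset.sum_mul_sum]
    exact Finset.sum_congr rfl fun i _ => Finset.sum_congr rfl fun j _ => by ring
  have e4 : (∑ i, p i) * (∑ i, l i ^ (q + r) * p i) =
      ∑ i, ∑ j, l i ^ (q + r) * (p i * p j) := by
    rw [e3, Finset.sum_comm]
    exact Finset.sum_congr rfl fun i _ => Finset.sum_congr rfl fun j _ => by ring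
  have e5 : 2 * ((∑ i, l i ^ q * p i) * (∑ i, l i ^ r * p i)) ≤
      2 * ((∑ i, p i) * (∑ i, l i ^ (q + r) * p i)) := by
    have e6 : 2 * ((∑ i, l i ^ q * p i) * (∑ i, l i ^ r * p i)) =
        ∑ i, ∑ j, (l i ^ q * l j ^ r + l j ^ q * l i ^ r) * (p i * p j) := by
      rw [two_mul]
      nth_rw 1 [e1]
      rw [e2, ← Finset.sum_add_distrib]
      refine Finset.sum_congr rfl fun i _ => ?_
      rw [← Finset.sum_add_distrib]
      exact Finset.sum_congr rfl fun j _ => by ring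
    have e7 : 2 * ((∑ i, p i) * (∑ i, l i ^ (q + r) * p i)) =
        ∑ i, ∑ j, (l i ^ (q + r) + l j ^ (q + r)) * (p i * p j) := by
      rw [two_mul]
      nth_rw 1 [e4]
      rw [e3, ← Finset.sum_add_distrib]
      refine Finset.sum_congr rfl fun i _ => ?_
      rw [← Finset.sum_add_distrib]
      exact Finset.sum_congr rfl fun j _ => by ring
    rw [e6, e7]
    refine Finset.sum_le_sum fun i _ => Finset.sum_le_sum fun j _ => ?_
    exact mul_le_mul_of_nonneg_right (mono_ineq _ _ q r hr) (mul_nonneg (hp0 i) (hp0 j))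
  linarith

/-- a bound on the trace of an even power bounds the form -/
theorem form_le (X : Matrix ι ι ℝ) (hX : X.IsHermitian) (p : ℕ) (t : ℝ) (ht : 0 ≤ t) (hp : p ≠ 0)
    (h : (X ^ (2 * p)).trace ≤ t ^ (2 * p)) (v : ι → ℝ) :
    |v ⬝ᵥ (X *ᵥ v)| ≤ t * ∑ i, v i ^ 2 := by
  obtain ⟨U, l, h1, h2, rfl⟩ := spec X hX
  rw [pow_spec U l h2 h1] at h
  have h3 : (U * Matrix.diagonal (fun i => l i ^ (2 * p)) * Uᵀ).trace = ∑ i, l i ^ (2 * p) := by
    rw [Matrix.trace_mul_comm, ← Matrix.mul_assoc, h2, Matrix.one_mul, Matrix.trace_diagonal]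
  rw [h3] at h
  have h4 : ∀ i, |l i| ≤ t := by
    intro i
    have h5 : l i ^ (2 * p) ≤ t ^ (2 * p) := by
      refine le_trans ?_ h
      exact Finset.single_le_sum (f := fun i => l i ^ (2 * p))
        (fun j _ => by rw [pow_mul]; positivity) (Finset.mem_univ i)
    have h6 : |l i| ^ (2 * p) ≤ t ^ (2 * p) := by
      rwa [Even.pow_abs (even_two_mul p)]
    exact (pow_le_pow_iff_left₀ (abs_nonneg _) ht (by omega)).1 h6
  rw [form_spec, ← norm_spec U h1 v, Finset.mul_sum]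
  refine (Finset.abs_sum_le_sum_abs _ _).trans (Finset.sum_le_sum fun i _ => ?_)
  rw [abs_mul, abs_of_nonneg (sq_nonneg ((Uᵀ *ᵥ v) i))]
  exact mul_le_mul_of_nonneg_right (h4 i) (sq_nonneg _)

end det

section poly

variable {ι κ : Type*} [Fintype ι] [DecidableEq ι] [Fintype κ] [DecidableEq κ]

/-- the random matrix -/
def XM (w : κ → ι → ℝ) (ξ : κ → ℝ) : Matrix ι ι ℝ := fun i j => ∑ x, ξ x * (w x i * w x j)

theorem XM_herm (w : κ → ι → ℝ) (ξ : κ → ℝ) : (XM w ξ).IsHermitian := by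
  ext i j
  rw [Matrix.conjTranspose_apply, star_trivial]
  unfold XM
  exact Finset.sum_congr rfl fun x _ => by ring

/-- its polynomial version -/
noncomputable def PX (w : κ → ι → ℝ) : Matrix ι ι (MvPolynomial κ ℝ) :=
  fun i j => ∑ x, MvPolynomial.X x * MvPolynomial.C (w x i * w x j)

theorem eval_PX (w : κ → ι → ℝ) (ξ : κ → ℝ) :
    (MvPolynomial.eval ξ).mapMatrix (PX w) = XM w ξ := by
  ext i j
  simp [PX, XM]

/-- the vector `w_x` of constant polynomials -/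
noncomputable def PW (w : κ → ι → ℝ) (x : κ) : ι → MvPolynomial κ ℝ :=
  fun i => MvPolynomial.C (w x i)

/-- a derivation applied to a matrix power -/
theorem deriv_pow {R : Type*} [CommRing R] (D : R → R) (hadd : ∀ (s : Finset ι) (f : ι → R),
    D (∑ i ∈ s, f i) = ∑ i ∈ s, D (f i)) (hmul : ∀ a b, D (a * b) = D a * b + a * D b)
    (h0 : D 0 = 0) (h1 : D 1 = 0) (A : Matrix ι ι R) (n : ℕ) :
    (A ^ n).map D = ∑ q ∈ Finset.range n, A ^ q * A.map D * A ^ (n - 1 - q) := by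
  have hm : ∀ B C : Matrix ι ι R, (B * C).map D = B.map D * C + B * C.map D := by
    intro B C
    ext i j
    simp only [Matrix.map_apply, Matrix.mul_apply, Matrix.add_apply, hadd, hmul,
      Finset.sum_add_distrib]
  induction n with
  | zero =>
    ext i j
    rw [pow_zero, Matrix.map_apply, Matrix.one_apply]
    split_ifs <;> simp [h0, h1]
  | succ n ih =>
    rw [pow_succ', hm, ih, Finset.sum_range_succ', Finset.mul_sum, add_comm]
    congr 1
    · refine Finset.sum_congr rfl fun q _ => ?_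
      have e1 : n + 1 - 1 - (q + 1) = n - 1 - q := by omega
      rw [e1, pow_succ']
      simp only [Matrix.mul_assoc]
    · simp

theorem pderiv_PX (w : κ → ι → ℝ) (x : κ) :
    (PX w).map (MvPolynomial.pderiv x) = Matrix.vecMulVec (PW w x) (PW w x) := by
  ext1 i j
  rw [Matrix.map_apply, Matrix.vecMulVec_apply]
  unfold PX PW
  rw [map_sum, Finset.sum_eq_single x]
  · rw [MvPolynomial.pderiv_mul, MvPolynomial.pderiv_C, mul_zero, add_zero,
      MvPolynomial.pderiv_X_self, one_mul, MvPolynomial.C_mul]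
  · intro y _ hy
    rw [MvPolynomial.pderiv_mul, MvPolynomial.pderiv_C, mul_zero, add_zero,
      MvPolynomial.pderiv_X_of_ne hy, zero_mul]
  · intro h
    exact absurd (Finset.mem_univ x) h

/-- the polynomial `⟨w_x, X^n w_x⟩` -/
noncomputable def PF (w : κ → ι → ℝ) (x : κ) (n : ℕ) : MvPolynomial κ ℝ :=
  PW w x ⬝ᵥ ((PX w ^ n) *ᵥ PW w x)

theorem eval_PF (w : κ → ι → ℝ) (x : κ) (n : ℕ) (ξ : κ → ℝ) :
    MvPolynomial.eval ξ (PF w x n) = w x ⬝ᵥ ((XM w ξ ^ n) *ᵥ w x) := by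
  unfold PF
  rw [← eval_PX, ← map_pow]
  simp [dotProduct, Matrix.mulVec, PW]

theorem pderiv_PF (w : κ → ι → ℝ) (x : κ) (n : ℕ) :
    MvPolynomial.pderiv x (PF w x n) =
      ∑ q ∈ Finset.range n, PF w x q * PF w x (n - 1 - q) := by
  have h1 := deriv_pow (ι := ι) (R := MvPolynomial κ ℝ) (MvPolynomial.pderiv (R := ℝ) x)
    (fun s f => map_sum _ _ _) (fun a b => MvPolynomial.pderiv_mul) (map_zero _)
    (MvPolynomial.pderiv_one) (PX w) n
  have h2 : MvPolynomial.pderiv x (PF w x n) =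
      PW w x ⬝ᵥ (((PX w ^ n).map (MvPolynomial.pderiv x)) *ᵥ PW w x) := by
    unfold PF dotProduct Matrix.mulVec dotProduct
    rw [map_sum]
    refine Finset.sum_congr rfl fun i _ => ?_
    rw [MvPolynomial.pderiv_mul]
    have e1 : MvPolynomial.pderiv x (PW w x i) = 0 := MvPolynomial.pderiv_C
    rw [e1, zero_mul, zero_add, map_sum]
    congr 1
    refine Finset.sum_congr rfl fun j _ => ?_
    rw [MvPolynomial.pderiv_mul]
    have e2 : MvPolynomial.pderiv x (PW w x j) = 0 := MvPolynomial.pderiv_C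
    rw [e2, mul_zero, add_zero]
    rfl
  rw [h2, h1, Matrix.sum_mulVec, dotProduct_sum]
  refine Finset.sum_congr rfl fun q _ => ?_
  rw [pderiv_PX]
  unfold PF
  rw [← Matrix.mulVec_mulVec, ← Matrix.mulVec_mulVec, Matrix.vecMulVec_mulVec]
  rw [Matrix.mulVec_smul]
  simp [dotProduct_smul, mul_comm]

theorem XM_eq (w : κ → ι → ℝ) (ξ : κ → ℝ) :
    XM w ξ = ∑ x, ξ x • Matrix.vecMulVec (w x) (w x) := by
  ext i j
  simp [XM, Matrix.sum_apply, Matrix.vecMulVec_apply]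

/-- trace and the forms `⟨w_x, X^n w_x⟩` -/
theorem trace_succ (w : κ → ι → ℝ) (ξ : κ → ℝ) (n : ℕ) :
    (XM w ξ ^ (n + 1)).trace = ∑ x, ξ x * (w x ⬝ᵥ ((XM w ξ ^ n) *ᵥ w x)) := by
  rw [pow_succ']
  nth_rw 1 [XM_eq]
  rw [Finset.sum_mul, Matrix.trace_sum]
  refine Finset.sum_congr rfl fun x _ => ?_
  rw [Matrix.smul_mul, Matrix.trace_smul, smul_eq_mul, Matrix.vecMulVec_mul,
    Matrix.trace_vecMulVec, Matrix.dotProduct_mulVec, dotProduct_comm]

theorem sum_form_le (w : κ → ι → ℝ) (b : ℝ)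
    (hb : ∀ f : ι → ℝ, ∑ x, (∑ i, w x i * f i) ^ 2 ≤ b * ∑ i, f i ^ 2) (Z : Matrix ι ι ℝ)
    (hZ : Z.IsHermitian) :
    ∑ x, w x ⬝ᵥ ((Z ^ 2) *ᵥ w x) ≤ b * (Z ^ 2).trace := by
  have hZt : Zᵀ = Z := by
    have := hZ.eq
    rwa [Matrix.conjTranspose_eq_transpose_of_trivial] at this
  have h1 : ∀ x, w x ⬝ᵥ ((Z ^ 2) *ᵥ w x) = ∑ j, (∑ i, w x i * Z i j) ^ 2 := by
    intro x
    rw [sq, ← Matrix.mulVec_mulVec, Matrix.dotProduct_mulVec]
    have h2 : Z *ᵥ w x = w x ᵥ* Z := by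
      conv_lhs => rw [← hZt]
      rw [Matrix.mulVec_transpose]
    rw [h2]
    unfold dotProduct Matrix.vecMul dotProduct
    exact Finset.sum_congr rfl fun j _ => by ring
  have h3 : (Z ^ 2).trace = ∑ j, ∑ i, Z i j ^ 2 := by
    rw [sq]
    unfold Matrix.trace
    simp only [Matrix.diag_apply, Matrix.mul_apply]
    refine Finset.sum_congr rfl fun j _ => Finset.sum_congr rfl fun i _ => ?_
    have : Z j i = Z i j := by
      conv_lhs => rw [← hZt]
      rw [Matrix.transpose_apply]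
    rw [this]
    ring
  simp only [h1]
  rw [Finset.sum_comm, h3, Finset.mul_sum]
  exact Finset.sum_le_sum fun j _ => hb fun i => Z i j

/-- **moment bound** -/
theorem moment (w : κ → ι → ℝ) (a b : ℝ) (ha0 : 0 ≤ a) (hb0 : 0 ≤ b) (ha : ∀ x, ∑ i, w x i ^ 2 ≤ a)
    (hb : ∀ f : ι → ℝ, ∑ x, (∑ i, w x i * f i) ^ 2 ≤ b * ∑ i, f i ^ 2) (p : ℕ) :
    Integrable (fun ξ => (XM w ξ ^ (2 * p)).trace) (Γ κ) ∧
    ∫ ξ, (XM w ξ ^ (2 * p)).trace ∂(Γ κ) ≤ (2 * p * a * b) ^ p * Fintype.card ι := by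
  have hint : ∀ x n, Integrable (fun ξ => w x ⬝ᵥ ((XM w ξ ^ n) *ᵥ w x)) (Γ κ) := by
    intro x n
    simp only [← eval_PF]
    exact Gm.int_poly _
  have hint2 : ∀ x n, Integrable (fun ξ => ξ x * (w x ⬝ᵥ ((XM w ξ ^ n) *ᵥ w x))) (Γ κ) := by
    intro x n
    have : (fun ξ : κ → ℝ => ξ x * (w x ⬝ᵥ ((XM w ξ ^ n) *ᵥ w x))) =
        fun ξ => MvPolynomial.eval ξ (MvPolynomial.X x * PF w x n) := by
      funext ξ
      rw [map_mul, MvPolynomial.eval_X, eval_PF]
    rw [this]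
    exact Gm.int_poly _
  have htr : ∀ n, Integrable (fun ξ => (XM w ξ ^ n).trace) (Γ κ) := by
    intro n
    have : (fun ξ : κ → ℝ => (XM w ξ ^ n).trace) =
        fun ξ => MvPolynomial.eval ξ ((PX w ^ n).trace) := by
      funext ξ
      rw [← eval_PX, ← map_pow]
      simp [Matrix.trace]
    rw [this]
    exact Gm.int_poly _
  refine ⟨htr _, ?_⟩
  induction p with
  | zero => simp
  | succ p ih =>
    have e1 : 2 * (p + 1) = 2 * p + 1 + 1 := by ring
    rw [e1]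
    simp only [trace_succ w _ (2 * p + 1)]
    rw [integral_finsetSum _ fun x _ => hint2 x _]
    have e2 : ∀ x, ∫ ξ, ξ x * (w x ⬝ᵥ ((XM w ξ ^ (2 * p + 1)) *ᵥ w x)) ∂(Γ κ) ≤
        (2 * p + 1) * a * ∫ ξ, w x ⬝ᵥ ((XM w ξ ^ (2 * p)) *ᵥ w x) ∂(Γ κ) := by
      intro x
      have e3 := Gm.ibp (PF w x (2 * p + 1)) x
      simp only [eval_PF, pderiv_PF, map_sum, map_mul] at e3
      rw [e3, ← integral_const_mul]
      refine integral_mono ?_ ((hint x _).const_mul _) fun ξ => ?_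
      · have : (fun ξ : κ → ℝ => ∑ q ∈ Finset.range (2 * p + 1), w x ⬝ᵥ ((XM w ξ ^ q) *ᵥ w x) *
            (w x ⬝ᵥ ((XM w ξ ^ (2 * p + 1 - 1 - q)) *ᵥ w x))) = fun ξ => MvPolynomial.eval ξ
            (∑ q ∈ Finset.range (2 * p + 1), PF w x q * PF w x (2 * p + 1 - 1 - q)) := by
          funext ξ
          simp only [map_sum, map_mul, eval_PF]
        rw [this]
        exact Gm.int_poly _
      · simp only
        have e4 : ∀ q ∈ Finset.range (2 * p + 1), w x ⬝ᵥ ((XM w ξ ^ q) *ᵥ w x) *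
            (w x ⬝ᵥ ((XM w ξ ^ (2 * p + 1 - 1 - q)) *ᵥ w x)) ≤
            a * (w x ⬝ᵥ ((XM w ξ ^ (2 * p)) *ᵥ w x)) := by
          intro q hq
          have hq' := Finset.mem_range.1 hq
          have e5 : q + (2 * p + 1 - 1 - q) = 2 * p := by omega
          have e6 := form_ineq (XM w ξ) (XM_herm w ξ) (w x) q (2 * p + 1 - 1 - q)
            (by rw [e5]; exact even_two_mul p)
          rw [e5] at e6
          refine e6.trans ?_
          apply mul_le_mul_of_nonneg_right (ha x)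
          obtain ⟨U, l, h1, h2, h3⟩ := spec (XM w ξ) (XM_herm w ξ)
          rw [h3, pow_spec U l h2 h1, form_spec]
          refine Finset.sum_nonneg fun i _ => mul_nonneg ?_ (sq_nonneg _)
          rw [pow_mul]
          positivity
        refine (Finset.sum_le_sum e4).trans (le_of_eq ?_)
        rw [Finset.sum_const, Finset.card_range, nsmul_eq_mul]
        push_cast
        ring
    refine (Finset.sum_le_sum fun x _ => e2 x).trans ?_
    rw [← Finset.mul_sum, ← integral_finsetSum _ fun x _ => hint x _]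
    have e7 : ∫ ξ, ∑ x, w x ⬝ᵥ ((XM w ξ ^ (2 * p)) *ᵥ w x) ∂(Γ κ) ≤
        b * ∫ ξ, (XM w ξ ^ (2 * p)).trace ∂(Γ κ) := by
      rw [← integral_const_mul]
      refine integral_mono (integrable_finsetSum _ fun x _ => hint x _) ((htr _).const_mul _)
        fun ξ => ?_
      simp only
      have e8 : XM w ξ ^ (2 * p) = (XM w ξ ^ p) ^ 2 := by rw [← pow_mul, mul_comm]
      rw [e8]
      exact sum_form_le w b hb _ ((XM_herm w ξ).pow p)
    have hp0 : (0 : ℝ) ≤ p := Nat.cast_nonneg p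
    have hN : (0 : ℝ) ≤ Fintype.card ι := Nat.cast_nonneg _
    calc (2 * p + 1) * a * ∫ ξ, ∑ x, w x ⬝ᵥ ((XM w ξ ^ (2 * p)) *ᵥ w x) ∂(Γ κ)
        ≤ (2 * p + 1) * a * (b * ((2 * p * a * b) ^ p * Fintype.card ι)) := by
          apply mul_le_mul_of_nonneg_left _ (by positivity)
          exact e7.trans (mul_le_mul_of_nonneg_left ih hb0)
      _ = ((2 * p + 1) * a * b) * (2 * p * a * b) ^ p * Fintype.card ι := by ring
      _ ≤ (2 * ((p : ℝ) + 1) * a * b) * (2 * ((p : ℝ) + 1) * a * b) ^ p * Fintype.card ι := by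
          have hab : 0 ≤ a * b := mul_nonneg ha0 hb0
          have h1 : (2 * (p : ℝ) + 1) * a * b ≤ 2 * ((p : ℝ) + 1) * a * b := by
            rw [mul_assoc, mul_assoc (2 * ((p : ℝ) + 1))]
            exact mul_le_mul_of_nonneg_right (by linarith) hab
          have h2 : 2 * (p : ℝ) * a * b ≤ 2 * ((p : ℝ) + 1) * a * b := by
            rw [mul_assoc, mul_assoc (2 * ((p : ℝ) + 1))]
            exact mul_le_mul_of_nonneg_right (by linarith) hab
          have h3 : 0 ≤ 2 * (p : ℝ) * a * b := by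
            rw [mul_assoc]
            positivity
          have h4 := pow_le_pow_left₀ h3 h2 p
          apply mul_le_mul_of_nonneg_right _ hN
          exact mul_le_mul h1 h4 (by positivity) (by rw [mul_assoc]; positivity)
      _ = (2 * ((p + 1 : ℕ) : ℝ) * a * b) ^ (p + 1) * Fintype.card ι := by
          push_cast
          ring

/-- **tail bound**: outside an event of small probability the form is small -/
theorem tail (w : κ → ι → ℝ) (a b t : ℝ) (ha0 : 0 ≤ a) (hb0 : 0 ≤ b) (ht : 0 < t)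
    (ha : ∀ x, ∑ i, w x i ^ 2 ≤ a)
    (hb : ∀ f : ι → ℝ, ∑ x, (∑ i, w x i * f i) ^ 2 ≤ b * ∑ i, f i ^ 2) (p : ℕ) (hp : p ≠ 0) :
    ∃ G : Set (κ → ℝ), MeasurableSet G ∧
      (Γ κ).real Gᶜ ≤ (2 * p * a * b / t ^ 2) ^ p * Fintype.card ι ∧
      ∀ ξ ∈ G, ∀ f : ι → ℝ, |∑ x, ξ x * (∑ i, w x i * f i) ^ 2| ≤ t * ∑ i, f i ^ 2 := by
  obtain ⟨h1, h2⟩ := moment w a b ha0 hb0 ha hb p
  have hmeas : Measurable (fun ξ => (XM w ξ ^ (2 * p)).trace) := by
    have : (fun ξ : κ → ℝ => (XM w ξ ^ (2 * p)).trace) =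
        fun ξ => MvPolynomial.eval ξ ((PX w ^ (2 * p)).trace) := by
      funext ξ
      rw [← eval_PX, ← map_pow]
      simp [Matrix.trace]
    rw [this]
    exact (MvPolynomial.continuous_eval _).measurable
  have hpos : ∀ ξ, 0 ≤ (XM w ξ ^ (2 * p)).trace := by
    intro ξ
    obtain ⟨U, l, g1, g2, g3⟩ := spec (XM w ξ) (XM_herm w ξ)
    rw [g3, pow_spec U l g2 g1, Matrix.trace_mul_comm, ← Matrix.mul_assoc, g2, Matrix.one_mul,
      Matrix.trace_diagonal]
    refine Finset.sum_nonneg fun i _ => ?_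
    rw [pow_mul]
    positivity
  refine ⟨{ξ | (XM w ξ ^ (2 * p)).trace ≤ t ^ (2 * p)}, measurableSet_le hmeas measurable_const,
    ?_, ?_⟩
  · have h3 := mul_meas_ge_le_integral_of_nonneg (Filter.Eventually.of_forall hpos) h1
      (t ^ (2 * p))
    have h4 : (Γ κ).real {ξ | (XM w ξ ^ (2 * p)).trace ≤ t ^ (2 * p)}ᶜ ≤
        (Γ κ).real {ξ | t ^ (2 * p) ≤ (XM w ξ ^ (2 * p)).trace} := by
      refine measureReal_mono ?_ (measure_ne_top _ _)
      intro ξ hξ
      have h6 : ¬ (XM w ξ ^ (2 * p)).trace ≤ t ^ (2 * p) := hξ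
      exact (not_le.1 h6).le
    have h5 : 0 < t ^ (2 * p) := by positivity
    refine h4.trans ?_
    rw [div_pow, ← pow_mul, div_mul_eq_mul_div, le_div_iff₀ h5, mul_comm]
    exact h3.trans h2
  · intro ξ hξ f
    have h3 := form_le (XM w ξ) (XM_herm w ξ) p t ht.le hp hξ f
    have h4 : f ⬝ᵥ (XM w ξ *ᵥ f) = ∑ x, ξ x * (∑ i, w x i * f i) ^ 2 := by
      rw [XM_eq, Matrix.sum_mulVec, dotProduct_sum]
      refine Finset.sum_congr rfl fun x _ => ?_
      rw [Matrix.smul_mulVec, Matrix.vecMulVec_mulVec]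
      have e1 : w x ⬝ᵥ f = ∑ i, w x i * f i := rfl
      have e2 : f ⬝ᵥ w x = ∑ i, w x i * f i := by rw [dotProduct_comm]; rfl
      simp only [dotProduct_smul, MulOpposite.smul_eq_mul_unop, MulOpposite.unop_op, smul_eq_mul,
        e1, e2]
      ring
    rwa [h4] at h3

end poly

end Pool.Agent.W788.MFP.Nck
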