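import Pool.Agent.W788.MFP.Dos2
import Pool.Agent.W788.MFP.Nck

/-! Form bound for the random potential relative to `|H₀ - E - i δ|`, and its consequences for
approximate eigenfunctions on the torus. -/

set_option autoImplicit false
set_option linter.unusedSectionVars false

open scoped BigOperators
open MeasureTheory

namespace Pool.Agent.W788.MFP.Form

open Pool.Agent.W788.MFP.Four Pool.Agent.W788.MFP.Dos
open Pool.Agent.W788.MFP.Gm (Γ)

variable {d L : ℕ} [NeZero L]

/-- the symbol of `|H₀ - E - i δ|` -/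
noncomputable def J (E δ : ℝ) (k : T d L) : ℝ := Real.sqrt ((adj k - E) ^ 2 + δ ^ 2)

theorem J_pos (E δ : ℝ) (hδ : 0 < δ) (k : T d L) : 0 < J E δ k :=
  Real.sqrt_pos.2 (by positivity)

theorem J_sq (E δ : ℝ) (k : T d L) : J E δ k ^ 2 = (adj k - E) ^ 2 + δ ^ 2 :=
  Real.sq_sqrt (by positivity)

theorem J_ge (E δ : ℝ) (hδ : 0 < δ) (k : T d L) : δ ≤ J E δ k := by
  unfold J
  rw [Real.le_sqrt hδ.le (by positivity)]
  nlinarith [sq_nonneg (adj k - E)]

theorem J_ge' (E δ : ℝ) (k : T d L) : |adj k - E| ≤ J E δ k := by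
  unfold J
  rw [← Real.sqrt_sq_eq_abs]
  apply Real.sqrt_le_sqrt
  nlinarith [sq_nonneg δ]

theorem J_neg (E δ : ℝ) (k : T d L) : J E δ (-k) = J E δ k := by
  unfold J
  rw [adj_neg]

/-- the constant in the bound for the diagonal of the resolvent -/
noncomputable def gg (δ : ℝ) : ℝ := (2 + 8 * C3) * Real.log (1 / δ)

theorem gg_pos (δ : ℝ) (h0 : 0 < δ) (h1 : δ ≤ 1 / 2) : 0 < gg δ := by
  unfold gg C3
  have : 0 < Real.log (1 / δ) := Real.log_pos (by
    rw [lt_div_iff₀ h0]
    linarith)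
  positivity

/-- the form bound for one energy -/
theorem form1 (hd : 3 ≤ d) (E δ : ℝ) (hδ : 1 / (L : ℝ) ≤ δ) (hδ1 : δ ≤ 1 / 2) (t : ℝ)
    (ht : 0 < t) (p : ℕ) (hp : p ≠ 0) :
    ∃ G : Set (T d L → ℝ), MeasurableSet G ∧
      (Γ (T d L)).real Gᶜ ≤ (2 * p * gg δ * δ⁻¹ / t ^ 2) ^ p * NN d L ∧
      ∀ ξ ∈ G, ∀ v : T d L → ℝ, |∑ x, ξ x * v x ^ 2| ≤ t * q (J E δ) v := by
  have hL : (0 : ℝ) < L := by exact_mod_cast Nat.pos_of_ne_zero (NeZero.ne L)
  have hδ0 : 0 < δ := lt_of_lt_of_le (by positivity) hδ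
  set ω : T d L → ℝ := fun k => (Real.sqrt (J E δ k))⁻¹ with hω
  have hωe : ∀ k, ω (-k) = ω k := fun k => by simp only [hω, J_neg]
  have hω2 : ∀ k, ω k ^ 2 = (J E δ k)⁻¹ := fun k => by
    simp only [hω, inv_pow]
    rw [Real.sq_sqrt (J_pos E δ hδ0 k).le]
  set r : T d L → ℝ := fun k => Real.sqrt (J E δ k) with hr
  have hre : ∀ k, r (-k) = r k := fun k => by simp only [hr, J_neg]
  have hr2 : ∀ k, r k ^ 2 = J E δ k := fun k => Real.sq_sqrt (J_pos E δ hδ0 k).le
  have hωr : (fun k => ω k * r k) = fun _ => 1 := by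
    funext k
    simp only [hω, hr]
    exact inv_mul_cancel₀ (Real.sqrt_pos.2 (J_pos E δ hδ0 k)).ne'
  set w : T d L → T d L → ℝ := fun x y => K ω (x - y) with hw
  obtain ⟨G, hG, hP, hb⟩ := Nck.tail w (gg δ) δ⁻¹ t (gg_pos δ hδ0 hδ1).le
    (inv_nonneg.2 hδ0.le) ht (fun x => by
      rw [K_sq ω hωe x]
      simp only [hω2]
      exact green d hd E δ hδ hδ1) (fun f => by
      have h1 : ∑ x, (∑ y, w x y * f y) ^ 2 = ∑ x, Op ω f x * Op ω f x :=
        Finset.sum_congr rfl fun x _ => by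
          rw [sq]
          rfl
      rw [h1, sum_Op ω ω f hωe hωe, sum_sq, ← q_const]
      apply q_mono
      intro k
      rw [← sq, hω2, mul_one]
      exact inv_anti₀ hδ0 (J_ge E δ hδ0 k)) p hp
  refine ⟨G, hG, ?_, fun ξ hξ v => ?_⟩
  · rw [card_T] at hP
    exact hP
  · have h1 := hb ξ hξ (Op r v)
    have h2 : ∀ x, ∑ y, w x y * Op r v y = v x := by
      intro x
      have h3 := Op_Op ω r v hωe hre
      rw [hωr, Op_one] at h3
      exact congrFun h3 x
    simp only [h2] at h1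
    rw [sum_sq, q_Op _ r v hre] at h1
    simp only [one_mul, hr2] at h1
    exact h1

/-- comparison of two energies -/
theorem J_le (E E' δ : ℝ) (hδ : 0 < δ) (h : |E - E'| ≤ δ) (k : T d L) :
    J E' δ k ≤ 2 * J E δ k := by
  have h1 : J E' δ k ^ 2 ≤ (2 * J E δ k) ^ 2 := by
    rw [mul_pow, J_sq, J_sq]
    have h2 := abs_le.1 h
    have h3 : (adj k - E') ^ 2 ≤ 2 * (adj k - E) ^ 2 + 2 * δ ^ 2 := by
      nlinarith [sq_nonneg ((adj k - E) - (E - E'))]
    nlinarith [sq_nonneg (adj k - E), sq_nonneg δ]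
  exact (pow_le_pow_iff_left₀ (J_pos E' δ hδ k).le (by have := J_pos E δ hδ k; positivity)
    two_ne_zero).1 h1

theorem adj_abs (k : T d L) : |adj k| ≤ 2 * d := by
  rw [adj_eq]
  refine (Finset.abs_sum_le_sum_abs _ _).trans ?_
  refine (Finset.sum_le_sum fun i _ => a_abs (k i)).trans ?_
  simp
  linarith

/-- the form bound for all energies -/
theorem formE (hd : 3 ≤ d) (δ : ℝ) (hδ : 1 / (L : ℝ) ≤ δ) (hδ1 : δ ≤ 1 / 2) (t : ℝ)
    (ht : 0 < t) (p : ℕ) (hp : p ≠ 0) :
    ∃ G : Set (T d L → ℝ), MeasurableSet G ∧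
      (Γ (T d L)).real Gᶜ ≤ (8 * d / δ) * ((2 * p * gg δ * δ⁻¹ / t ^ 2) ^ p * NN d L) ∧
      ∀ ξ ∈ G, ∀ (E : ℝ) (v : T d L → ℝ), |∑ x, ξ x * v x ^ 2| ≤ 2 * t * q (J E δ) v := by
  have hL : (0 : ℝ) < L := by exact_mod_cast Nat.pos_of_ne_zero (NeZero.ne L)
  have hδ0 : 0 < δ := lt_of_lt_of_le (by positivity) hδ
  have hd3 : (3 : ℝ) ≤ d := by exact_mod_cast hd
  choose G hG hP hb using fun E : ℝ => form1 (d := d) (L := L) hd E δ hδ hδ1 t ht p hp
  set M : ℕ := ⌈(2 * (d : ℝ)) / δ⌉₊ with hM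
  have hM1 : (2 * (d : ℝ)) / δ ≤ M := Nat.le_ceil _
  have hM2 : (M : ℝ) ≤ 2 * d / δ + 1 := (Nat.ceil_lt_add_one (by positivity)).le
  have hMδ : 2 * (d : ℝ) ≤ δ * M := by
    rw [div_le_iff₀ hδ0] at hM1
    linarith
  set I : Finset ℤ := Finset.Icc (-(M : ℤ)) M with hI
  have hcard : (I.card : ℝ) ≤ 8 * d / δ := by
    rw [hI, Int.card_Icc]
    have e1 : ((M : ℤ) + 1 - -(M : ℤ)).toNat = 2 * M + 1 := by omega
    rw [e1]
    push_cast
    have h3 : (3 : ℝ) ≤ 4 * d / δ := by
      rw [le_div_iff₀ hδ0]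
      nlinarith
    calc 2 * (M : ℝ) + 1 ≤ 2 * (2 * d / δ + 1) + 1 := by linarith
      _ = 4 * d / δ + 3 := by ring
      _ ≤ 4 * d / δ + 4 * d / δ := by linarith
      _ = 8 * d / δ := by ring
  have hm : MeasurableSet (⋂ j ∈ I, G (δ * j)) :=
    Finset.measurableSet_biInter _ fun j _ => hG _
  refine ⟨⋂ j ∈ I, G (δ * j), hm, ?_, ?_⟩
  · have e1 : (⋂ j ∈ I, G (δ * j))ᶜ = ⋃ j ∈ I, (G (δ * j))ᶜ := by
      simp only [Set.compl_iInter]
    rw [e1]
    refine (measureReal_biUnion_finset_le _ _).trans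
      ((Finset.sum_le_sum fun j _ => hP _).trans ?_)
    rw [Finset.sum_const, nsmul_eq_mul]
    apply mul_le_mul_of_nonneg_right hcard
    have h1 := (gg_pos δ hδ0 hδ1).le
    have h2 := (NN_pos (d := d) (L := L)).le
    positivity
  · intro ξ hξ E v
    have hj : ∀ j ∈ I, ξ ∈ G (δ * j) := fun j hj => Set.mem_iInter₂.1 hξ j hj
    -- choose the net point
    have hex : ∃ j ∈ I, ∀ k : T d L, J (δ * j) δ k ≤ 2 * J E δ k := by
      have hlarge : ∀ E' : ℝ, (∀ k : T d L, |adj k - E'| ≤ |adj k - E|) →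
          ∀ k : T d L, J E' δ k ≤ 2 * J E δ k := by
        intro E' h k
        have h1 : J E' δ k ≤ J E δ k := by
          unfold J
          apply Real.sqrt_le_sqrt
          have h2 := h k
          have h3 : (adj k - E') ^ 2 ≤ (adj k - E) ^ 2 := sq_le_sq.2 h2
          linarith
        have h2 := J_pos E δ hδ0 k
        linarith
      rcases le_or_gt (δ * M) E with h1 | h1
      · refine ⟨M, by rw [hI, Finset.mem_Icc]; omega, ?_⟩
        apply hlarge
        intro k
        have h2 := (abs_le.1 (adj_abs k)).2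
        push_cast
        rw [abs_of_nonpos (by linarith), abs_of_nonpos (by linarith)]
        linarith
      · rcases le_or_gt E (-(δ * M)) with h2 | h2
        · refine ⟨-M, by rw [hI, Finset.mem_Icc]; omega, ?_⟩
          apply hlarge
          intro k
          have h3 := (abs_le.1 (adj_abs k)).1
          push_cast
          rw [abs_of_nonneg (by linarith), abs_of_nonneg (by linarith)]
          linarith
        · have h3 := Int.floor_le (E / δ)
          have h4 := Int.lt_floor_add_one (E / δ)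
          refine ⟨⌊E / δ⌋, ?_, ?_⟩
          · rw [hI, Finset.mem_Icc]
            constructor
            · rw [Int.le_floor, le_div_iff₀ hδ0]
              push_cast
              linarith
            · have h5 : E / δ < M := by
                rw [div_lt_iff₀ hδ0]
                linarith
              have h6 : (⌊E / δ⌋ : ℝ) < M := by linarith
              have h7 : ⌊E / δ⌋ < (M : ℤ) := by exact_mod_cast h6
              omega
          · intro k
            apply J_le E _ δ hδ0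
            have h5 : δ * (⌊E / δ⌋ : ℝ) ≤ E := by
              calc δ * (⌊E / δ⌋ : ℝ) ≤ δ * (E / δ) := by gcongr
                _ = E := by field_simp
            have h6 : E ≤ δ * (⌊E / δ⌋ : ℝ) + δ := by
              calc E = δ * (E / δ) := by field_simp
                _ ≤ δ * ((⌊E / δ⌋ : ℝ) + 1) := by gcongr
                _ = _ := by ring
            rw [abs_le]
            constructor <;> linarith
    obtain ⟨j, hjI, hJ⟩ := hex
    have h1 := hb (δ * j) ξ (hj j hjI) v
    have h2 : q (J (δ * j) δ) v ≤ 2 * q (J E δ) v := by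
      rw [← q_const]
      exact q_mono _ _ _ hJ
    calc |∑ x, ξ x * v x ^ 2| ≤ t * q (J (δ * j) δ) v := h1
      _ ≤ t * (2 * q (J E δ) v) := by gcongr
      _ = _ := by ring

/-- approximate eigenfunctions -/
theorem eig (E δ t σ : ℝ) (hδ : 0 < δ) (ht : 0 ≤ t) (hσ : 0 ≤ σ) (hσt : σ * t ≤ 1 / 2) (ξ v r : T d L → ℝ)
    (hf : ∀ w : T d L → ℝ, |∑ x, ξ x * w x ^ 2| ≤ t * q (J E δ) w)
    (h : ∀ x, Op (fun k => adj k - E) v x = -(σ * ξ x * v x) + r x) :
    q (J E δ) v ≤ 3 * δ * ∑ x, v x ^ 2 + δ⁻¹ * ∑ x, r x ^ 2 := by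
  set hh : T d L → ℝ := fun k => adj k - E with hhh
  have hhe : ∀ k, hh (-k) = hh k := fun k => by simp only [hhh, adj_neg]
  set m : T d L → ℝ := fun k => hh k / J E δ k with hm
  have hme : ∀ k, m (-k) = m k := fun k => by simp only [hm, hhe, J_neg]
  have hJp := J_pos (d := d) (L := L) E δ hδ
  have hm1 : ∀ k, m k ^ 2 ≤ 1 := by
    intro k
    rw [hm]
    simp only
    rw [div_pow, div_le_one (by have := hJp k; positivity), J_sq]
    nlinarith [sq_nonneg δ]
  set w : T d L → ℝ := Op m v with hw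
  -- the form tested with `w`
  have h1 : ∑ x, w x * Op hh v x = q (fun k => m k * hh k) v := sum_Op m hh v hme hhe
  have h2 : q (J E δ) v ≤ q (fun k => m k * hh k) v + δ * ∑ x, v x ^ 2 := by
    rw [sum_sq, ← q_const, ← q_add]
    apply q_mono
    intro k
    have h3 := hJp k
    have h4 := J_sq E δ k
    have h5 := J_ge E δ hδ k
    simp only [hm, mul_one]
    have h6 : hh k / J E δ k * hh k = hh k ^ 2 / J E δ k := by ring
    rw [h6]
    have h7 : J E δ k = hh k ^ 2 / J E δ k + δ ^ 2 / J E δ k := by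
      rw [← add_div, eq_div_iff h3.ne', ← sq, h4]
    have h8 : δ ^ 2 / J E δ k ≤ δ := by
      rw [div_le_iff₀ h3]
      nlinarith
    linarith
  have h3 : ∑ x, w x * Op hh v x = -(σ * ∑ x, ξ x * (w x * v x)) + ∑ x, w x * r x := by
    rw [Finset.mul_sum, ← Finset.sum_neg_distrib, ← Finset.sum_add_distrib]
    refine Finset.sum_congr rfl fun x _ => ?_
    rw [h x]
    ring
  -- the random term
  have h4 : |∑ x, ξ x * (w x * v x)| ≤ t * q (J E δ) v := by
    have e2 : (fun x => w x + v x) = Op (fun k => m k + 1) v := by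
      apply ft_inj
      intro k
      rw [ft_add, hw, ft_Op m v hme, ft_Op _ v (fun k => by simp only [hme k])]
      push_cast
      ring
    have e3 : (fun x => w x - v x) = Op (fun k => m k - 1) v := by
      apply ft_inj
      intro k
      have e4 : ft (fun x => w x - v x) k = ft w k - ft v k := by
        unfold ft
        rw [← Finset.sum_sub_distrib]
        exact Finset.sum_congr rfl fun x _ => by push_cast; ring
      rw [e4, hw, ft_Op m v hme, ft_Op _ v (fun k => by simp only [hme k])]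
      push_cast
      ring
    have f2 : ∀ x, Op (fun k => m k + 1) v x = w x + v x := fun x => (congrFun e2 x).symm
    have f3 : ∀ x, Op (fun k => m k - 1) v x = w x - v x := fun x => (congrFun e3 x).symm
    have e1 : ∑ x, ξ x * (w x * v x) = 1 / 4 * (∑ x, ξ x * Op (fun k => m k + 1) v x ^ 2 -
        ∑ x, ξ x * Op (fun k => m k - 1) v x ^ 2) := by
      rw [← Finset.sum_sub_distrib, Finset.mul_sum]
      refine Finset.sum_congr rfl fun x _ => ?_
      rw [f2, f3]
      ring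
    have a1 := hf (Op (fun k => m k + 1) v)
    have a2 := hf (Op (fun k => m k - 1) v)
    rw [q_Op _ _ _ (fun k => by simp only [hme k])] at a1 a2
    have e5 : q (fun k => J E δ k * (m k + 1) ^ 2) v + q (fun k => J E δ k * (m k - 1) ^ 2) v ≤
        4 * q (J E δ) v := by
      rw [← q_add, ← q_const]
      apply q_mono
      intro k
      have := hm1 k
      have := hJp k
      nlinarith
    have e6 := mul_le_mul_of_nonneg_left e5 ht
    have b1 := abs_le.1 a1
    have b2 := abs_le.1 a2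
    rw [e1, abs_le]
    constructor <;> nlinarith
  have h5 : ∑ x, w x * r x ≤ δ / 2 * ∑ x, v x ^ 2 + δ⁻¹ / 2 * ∑ x, r x ^ 2 := by
    have e1 : ∑ x, w x ^ 2 ≤ ∑ x, v x ^ 2 := by
      rw [sum_sq, hw, q_Op _ _ _ hme, sum_sq]
      apply q_mono
      intro k
      rw [one_mul]
      exact hm1 k
    have e2 : ∑ x, w x * r x ≤ δ / 2 * ∑ x, w x ^ 2 + δ⁻¹ / 2 * ∑ x, r x ^ 2 := by
      rw [Finset.mul_sum, Finset.mul_sum, ← Finset.sum_add_distrib]
      refine Finset.sum_le_sum fun x _ => ?_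
      have e3 : δ / 2 * w x ^ 2 + δ⁻¹ / 2 * r x ^ 2 - w x * r x =
          (δ * w x - r x) ^ 2 / (2 * δ) := by
        field_simp
        ring
      have e4 : 0 ≤ (δ * w x - r x) ^ 2 / (2 * δ) := by positivity
      linarith
    have e5 : δ / 2 * ∑ x, w x ^ 2 ≤ δ / 2 * ∑ x, v x ^ 2 := by gcongr
    linarith
  have h6 : -(σ * ∑ x, ξ x * (w x * v x)) ≤ 1 / 2 * q (J E δ) v := by
    have e1 := (abs_le.1 h4).1
    have hq0 : 0 ≤ q (J E δ) v := q_nonneg _ _ fun k => (hJp k).le
    calc -(σ * ∑ x, ξ x * (w x * v x)) = σ * (-∑ x, ξ x * (w x * v x)) := by ring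
      _ ≤ σ * (t * q (J E δ) v) := by
          apply mul_le_mul_of_nonneg_left _ hσ
          linarith
      _ = (σ * t) * q (J E δ) v := by ring
      _ ≤ 1 / 2 * q (J E δ) v := mul_le_mul_of_nonneg_right hσt hq0
  linarith

end Pool.Agent.W788.MFP.Form
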