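import Pool.Agent.W788.MFP.Dos1

/-! Counting momenta in an energy shell: dimension at least three. -/

set_option autoImplicit false
set_option linter.unusedSectionVars false

open scoped BigOperators

namespace Pool.Agent.W788.MFP.Dos

open Pool.Agent.W788.MFP.Four

/-- pointwise dyadic bound -/
theorem dy_point (y s γ : ℝ) (hs : 0 < s) (hγ : 0 ≤ γ) (n : ℕ)
    (hn : (1 / 2 : ℝ) ^ (n + 1) < s) :
    (max y s) ^ (-γ) ≤ 1 + ∑ i ∈ Finset.range (n + 1), (2 : ℝ) ^ (γ * (i + 1)) *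
      (if y ≤ (1 / 2 : ℝ) ^ i then 1 else 0) := by
  have hM : 0 < max y s := lt_of_lt_of_le hs (le_max_right _ _)
  have hterm : ∀ i ∈ Finset.range (n + 1), 0 ≤ (2 : ℝ) ^ (γ * (i + 1)) *
      (if y ≤ (1 / 2 : ℝ) ^ i then (1 : ℝ) else 0) := by
    intro i _
    apply mul_nonneg (by positivity)
    split_ifs <;> norm_num
  rcases le_or_gt (max y s) 1 with h1 | h1
  · obtain ⟨i, hi1, hi2⟩ := exists_nat_pow_near_of_lt_one hM h1
      (by norm_num : (0 : ℝ) < 1 / 2) (by norm_num : (1 / 2 : ℝ) < 1)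
    have hin : i < n + 1 := by
      by_contra hcon
      have h2 : (1 / 2 : ℝ) ^ i ≤ (1 / 2) ^ (n + 1) :=
        pow_le_pow_of_le_one (by norm_num) (by norm_num) (by omega)
      have h3 := le_max_right y s
      linarith
    have h2 : (max y s) ^ (-γ) ≤ (2 : ℝ) ^ (γ * (i + 1)) := by
      have h3 : (max y s) ^ (-γ) ≤ ((1 / 2 : ℝ) ^ (i + 1)) ^ (-γ) :=
        Real.rpow_le_rpow_of_nonpos (by positivity) hi1.le (by linarith)
      refine h3.trans (le_of_eq ?_)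
      rw [← Real.rpow_natCast, ← Real.rpow_mul (by norm_num), one_div, Real.inv_rpow (by norm_num),
        ← Real.rpow_neg (by norm_num)]
      congr 1
      push_cast
      ring
    have h4 : (2 : ℝ) ^ (γ * (i + 1)) ≤ ∑ i ∈ Finset.range (n + 1), (2 : ℝ) ^ (γ * (i + 1)) *
        (if y ≤ (1 / 2 : ℝ) ^ i then (1 : ℝ) else 0) := by
      have h5 := Finset.single_le_sum hterm (Finset.mem_range.2 hin)
      rw [if_pos ((le_max_left y s).trans hi2), mul_one] at h5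
      exact h5
    linarith
  · have h2 : (max y s) ^ (-γ) ≤ 1 := Real.rpow_le_one_of_one_le_of_nonpos h1.le (by linarith)
    have h3 := Finset.sum_nonneg hterm
    linarith

/-- dyadic summation -/
theorem dy_sum {Ω : Type*} [Fintype Ω] (y : Ω → ℝ) (s γ α A N : ℝ) (hs : 0 < s) (hs1 : s ≤ 1)
    (hγ : 0 ≤ γ) (hN : (Fintype.card Ω : ℝ) ≤ N)
    (hc : ∀ r, s ≤ r → r ≤ 1 → ((Finset.univ.filter fun ω => y ω ≤ r).card : ℝ) ≤ A * r ^ α * N) :
    ∃ n : ℕ, s ≤ (1 / 2 : ℝ) ^ n ∧ ∑ ω, (max (y ω) s) ^ (-γ) ≤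
      N * (1 + A * 2 ^ γ * ∑ i ∈ Finset.range (n + 1), ((1 / 2 : ℝ) ^ (α - γ)) ^ i) := by
  obtain ⟨n, hn1, hn2⟩ := exists_nat_pow_near_of_lt_one hs hs1
    (by norm_num : (0 : ℝ) < 1 / 2) (by norm_num : (1 / 2 : ℝ) < 1)
  refine ⟨n, hn2, ?_⟩
  calc ∑ ω, (max (y ω) s) ^ (-γ) ≤ ∑ ω, (1 + ∑ i ∈ Finset.range (n + 1),
        (2 : ℝ) ^ (γ * (i + 1)) * (if y ω ≤ (1 / 2 : ℝ) ^ i then 1 else 0)) :=
        Finset.sum_le_sum fun ω _ => dy_point (y ω) s γ hs hγ n hn1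
    _ = (Fintype.card Ω : ℝ) + ∑ i ∈ Finset.range (n + 1), (2 : ℝ) ^ (γ * (i + 1)) *
        ((Finset.univ.filter fun ω => y ω ≤ (1 / 2 : ℝ) ^ i).card : ℝ) := by
        rw [Finset.sum_add_distrib, Finset.sum_comm]
        congr 1
        · simp
        · refine Finset.sum_congr rfl fun i _ => ?_
          rw [← Finset.mul_sum, Finset.sum_boole]
    _ ≤ N + ∑ i ∈ Finset.range (n + 1), (2 : ℝ) ^ (γ * (i + 1)) *
        (A * ((1 / 2 : ℝ) ^ i) ^ α * N) := by
        apply add_le_add hN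
        refine Finset.sum_le_sum fun i hi => ?_
        apply mul_le_mul_of_nonneg_left _ (by positivity)
        apply hc
        · have h2 : (1 / 2 : ℝ) ^ n ≤ (1 / 2) ^ i :=
            pow_le_pow_of_le_one (by norm_num) (by norm_num)
              (by have := Finset.mem_range.1 hi; omega)
          linarith
        · exact pow_le_one₀ (by norm_num) (by norm_num)
    _ = N * (1 + A * 2 ^ γ * ∑ i ∈ Finset.range (n + 1), ((1 / 2 : ℝ) ^ (α - γ)) ^ i) := by
        rw [mul_add, mul_one, Finset.mul_sum, Finset.mul_sum]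
        congr 1
        refine Finset.sum_congr rfl fun i _ => ?_
        have e1 : (2 : ℝ) ^ (γ * (i + 1)) = 2 ^ γ * ((1 / 2 : ℝ) ^ (-γ)) ^ i := by
          rw [mul_add, mul_one, Real.rpow_add (by norm_num), mul_comm]
          congr 1
          rw [one_div, Real.inv_rpow (by norm_num), ← Real.rpow_neg (by norm_num), neg_neg,
            Real.rpow_mul (by norm_num), Real.rpow_natCast]
        have e2 : ((1 / 2 : ℝ) ^ i) ^ α = ((1 / 2 : ℝ) ^ α) ^ i := by
          rw [← Real.rpow_natCast, ← Real.rpow_mul (by norm_num), mul_comm,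
            Real.rpow_mul (by norm_num), Real.rpow_natCast]
        have e3 : (1 / 2 : ℝ) ^ (α - γ) = (1 / 2 : ℝ) ^ α * (1 / 2 : ℝ) ^ (-γ) := by
          rw [← Real.rpow_add (by norm_num)]
          congr 1
        rw [e1, e2, e3, mul_pow]
        ring

/-- the convergent case -/
theorem dy_conv {Ω : Type*} [Fintype Ω] (y : Ω → ℝ) (s γ A N : ℝ) (hs : 0 < s)
    (hs1 : s ≤ 1) (hγ : 0 ≤ γ) (hγ1 : γ ≤ 1) (hA : 0 ≤ A) (hN : (Fintype.card Ω : ℝ) ≤ N)
    (hc : ∀ r, s ≤ r → r ≤ 1 →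
      ((Finset.univ.filter fun ω => y ω ≤ r).card : ℝ) ≤ A * r ^ (γ + 1 / 4) * N) :
    ∑ ω, (max (y ω) s) ^ (-γ) ≤ N * (1 + 16 * A) := by
  obtain ⟨n, -, h⟩ := dy_sum y s γ (γ + 1 / 4) A N hs hs1 hγ hN hc
  refine h.trans ?_
  have hN0 : 0 ≤ N := (Nat.cast_nonneg _).trans hN
  apply mul_le_mul_of_nonneg_left _ hN0
  have e1 : γ + 1 / 4 - γ = 1 / 4 := by ring
  rw [e1]
  set x : ℝ := (1 / 2 : ℝ) ^ (1 / 4 : ℝ) with hx
  have hx0 : 0 ≤ x := by positivity
  have hx1 : x ≤ 7 / 8 := by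
    have h1 : x ^ 4 ≤ (7 / 8) ^ 4 := by
      rw [hx, ← Real.rpow_natCast, ← Real.rpow_mul (by norm_num)]
      norm_num
    exact (pow_le_pow_iff_left₀ hx0 (by norm_num) (by norm_num)).1 h1
  have h2 : ∑ i ∈ Finset.range (n + 1), x ^ i ≤ 8 := by
    have h3 : (∑ i ∈ Finset.range (n + 1), x ^ i) * (1 - x) = 1 - x ^ (n + 1) :=
      geom_sum_mul_neg x (n + 1)
    have h4 : 0 ≤ ∑ i ∈ Finset.range (n + 1), x ^ i := Finset.sum_nonneg fun i _ => by positivity
    have h5 : 0 ≤ x ^ (n + 1) := by positivity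
    nlinarith
  have h3 : (2 : ℝ) ^ γ ≤ 2 := by
    calc (2 : ℝ) ^ γ ≤ 2 ^ (1 : ℝ) := Real.rpow_le_rpow_of_exponent_le (by norm_num) hγ1
      _ = 2 := Real.rpow_one 2
  have h4 : 0 ≤ ∑ i ∈ Finset.range (n + 1), x ^ i := Finset.sum_nonneg fun i _ => by positivity
  have h5 : (0 : ℝ) ≤ 2 ^ γ := by positivity
  have h6 : A * 2 ^ γ * ∑ i ∈ Finset.range (n + 1), x ^ i ≤ A * 2 * 8 := by gcongr
  linarith

/-- the logarithmic case -/
theorem dy_log {Ω : Type*} [Fintype Ω] (y : Ω → ℝ) (s A N : ℝ) (hs : 0 < s)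
    (hs1 : s ≤ 1 / 2) (hA : 0 ≤ A) (hN : (Fintype.card Ω : ℝ) ≤ N)
    (hc : ∀ r, s ≤ r → r ≤ 1 →
      ((Finset.univ.filter fun ω => y ω ≤ r).card : ℝ) ≤ A * r * N) :
    ∑ ω, (max (y ω) s)⁻¹ ≤ N * ((2 + 8 * A) * Real.log (1 / s)) := by
  obtain ⟨n, hn, h⟩ := dy_sum y s 1 1 A N hs (by linarith) (by norm_num) hN (by
    intro r hr hr1
    rw [Real.rpow_one]
    exact hc r hr hr1)
  have hN0 : 0 ≤ N := (Nat.cast_nonneg _).trans hN
  simp only [Real.rpow_neg_one, sub_self, Real.rpow_zero, one_pow, Finset.sum_const,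
    Finset.card_range, nsmul_eq_mul, mul_one, Real.rpow_one] at h
  refine h.trans ?_
  apply mul_le_mul_of_nonneg_left _ hN0
  have hl2 : (0.69 : ℝ) < Real.log 2 := by
    have := Real.log_two_gt_d9
    linarith
  have h1 : (n : ℝ) * Real.log 2 ≤ Real.log (1 / s) := by
    have h2 : (2 : ℝ) ^ n ≤ 1 / s := by
      rw [le_div_iff₀ hs]
      have h3 : (2 : ℝ) ^ n * (1 / 2) ^ n = 1 := by
        rw [← mul_pow]
        norm_num
      calc (2 : ℝ) ^ n * s ≤ 2 ^ n * (1 / 2) ^ n := by gcongr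
        _ = 1 := h3
    have h4 := Real.log_le_log (by positivity) h2
    rwa [Real.log_pow] at h4
  have h2 : Real.log 2 ≤ Real.log (1 / s) := by
    apply Real.log_le_log (by norm_num)
    rw [le_div_iff₀ hs]
    linarith
  have h3 : (n : ℝ) ≤ 3 / 2 * Real.log (1 / s) := by
    have : (0 : ℝ) ≤ n := Nat.cast_nonneg n
    nlinarith
  push_cast
  have h4 : (1 : ℝ) ≤ 3 / 2 * Real.log (1 / s) := by linarith
  have h5 : A * 2 * ((n : ℝ) + 1) ≤ A * 2 * (3 / 2 * Real.log (1 / s) + 3 / 2 * Real.log (1 / s)) := by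
    gcongr
  nlinarith

variable {L : ℕ} [NeZero L]

theorem adj_eq {n : ℕ} (k : T n L) : adj k = ∑ i, a (k i) := rfl

/-- number of momenta in a shell -/
noncomputable def cnt (L n : ℕ) [NeZero L] (t s : ℝ) : ℝ :=
  ((Finset.univ.filter fun k : T n L => |adj k - t| ≤ s).card : ℝ)

theorem cnt_succ (n : ℕ) (t s : ℝ) : cnt L (n + 1) t s =
    ∑ k : T n L, ((Finset.univ.filter fun j : ZMod L => |a j - (t - adj k)| ≤ s).card : ℝ) := by
  classical
  unfold cnt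
  have h1 : ((Finset.univ.filter fun k : T (n + 1) L => |adj k - t| ≤ s).card : ℝ) =
      ∑ k : T (n + 1) L, (if |adj k - t| ≤ s then (1 : ℝ) else 0) := by
    rw [Finset.sum_boole]
  rw [h1, ← Equiv.sum_comp (Fin.consEquiv fun _ => ZMod L), Fintype.sum_prod_type,
    Finset.sum_comm]
  refine Finset.sum_congr rfl fun k _ => ?_
  rw [← Finset.sum_boole]
  refine Finset.sum_congr rfl fun j _ => ?_
  have h2 : adj (Fin.consEquiv (fun _ => ZMod L) (j, k)) = a j + adj k := by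
    rw [adj_eq, adj_eq, Fin.sum_univ_succ]
    rfl
  have h3 : adj (Fin.consEquiv (fun _ => ZMod L) (j, k)) - t = a j - (t - adj k) := by
    rw [h2]
    ring
  rw [h3]

theorem cnt_succ' (n : ℕ) (t s : ℝ) : cnt L (n + 1) t s = ∑ j : ZMod L, cnt L n (t - a j) s := by
  classical
  unfold cnt
  have h1 : ((Finset.univ.filter fun k : T (n + 1) L => |adj k - t| ≤ s).card : ℝ) =
      ∑ k : T (n + 1) L, (if |adj k - t| ≤ s then (1 : ℝ) else 0) := by
    rw [Finset.sum_boole]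
  rw [h1, ← Equiv.sum_comp (Fin.consEquiv fun _ => ZMod L), Fintype.sum_prod_type]
  refine Finset.sum_congr rfl fun j _ => ?_
  rw [← Finset.sum_boole]
  refine Finset.sum_congr rfl fun k _ => ?_
  have h2 : adj (Fin.consEquiv (fun _ => ZMod L) (j, k)) = a j + adj k := by
    rw [adj_eq, adj_eq, Fin.sum_univ_succ]
    rfl
  have h3 : adj (Fin.consEquiv (fun _ => ZMod L) (j, k)) - t = adj k - (t - a j) := by
    rw [h2]
    ring
  rw [h3]

theorem mm_split (t s : ℝ) (hs : 0 < s) (hs1 : s ≤ 1) :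
    s / Real.sqrt (max (mm t) s) ≤ s * ((max |t - 2| s) ^ (-(1 / 2 : ℝ)) +
      (max |t + 2| s) ^ (-(1 / 2 : ℝ))) := by
  have h1 : ∀ x : ℝ, 0 < x → s / Real.sqrt x = s * x ^ (-(1 / 2 : ℝ)) := by
    intro x hx
    rw [Real.rpow_neg hx.le, ← Real.sqrt_eq_rpow, div_eq_mul_inv]
  have hp : ∀ x : ℝ, 0 < max x s := fun x => lt_of_lt_of_le hs (le_max_right _ _)
  rw [h1 _ (hp _)]
  apply mul_le_mul_of_nonneg_left _ hs.le
  have h2 : mm t = |t - 2| ∨ mm t = |t + 2| := by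
    unfold mm
    rcases le_total 0 t with h | h
    · left
      rw [abs_of_nonneg h]
    · right
      rw [abs_of_nonpos h]
      rw [← abs_neg]
      congr 1
      ring
  have p1 : 0 ≤ (max |t - 2| s) ^ (-(1 / 2 : ℝ)) := Real.rpow_nonneg (hp _).le _
  have p2 : 0 ≤ (max |t + 2| s) ^ (-(1 / 2 : ℝ)) := Real.rpow_nonneg (hp _).le _
  rcases h2 with h | h
  · rw [h]
    linarith
  · rw [h]
    linarith

/-- general step -/
theorem step (n : ℕ) (t s : ℝ) (hs : 1 / (L : ℝ) ≤ s) (hs1 : s ≤ 1) (B : ℝ)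
    (hB : ∀ c : ℝ, ∑ k : T n L, (max |adj k - c| s) ^ (-(1 / 2 : ℝ)) ≤ B) :
    cnt L (n + 1) t s ≤ 8 * L * s * B := by
  have hL : (0 : ℝ) < L := by exact_mod_cast Nat.pos_of_ne_zero (NeZero.ne L)
  have hs0 : 0 < s := lt_of_lt_of_le (by positivity) hs
  rw [cnt_succ]
  calc ∑ k : T n L, ((Finset.univ.filter fun j : ZMod L => |a j - (t - adj k)| ≤ s).card : ℝ)
      ≤ ∑ k : T n L, 4 * L * (s * ((max |t - adj k - 2| s) ^ (-(1 / 2 : ℝ)) +
        (max |t - adj k + 2| s) ^ (-(1 / 2 : ℝ)))) := by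
        refine Finset.sum_le_sum fun k _ => ?_
        refine (count1 (t - adj k) s hs (by linarith)).trans ?_
        exact mul_le_mul_of_nonneg_left (mm_split _ s hs0 hs1) (by positivity)
    _ = 4 * L * s * (∑ k : T n L, (max |adj k - (t - 2)| s) ^ (-(1 / 2 : ℝ)) +
        ∑ k : T n L, (max |adj k - (t + 2)| s) ^ (-(1 / 2 : ℝ))) := by
        rw [← Finset.sum_add_distrib, Finset.mul_sum]
        refine Finset.sum_congr rfl fun k _ => ?_
        have e1 : |t - adj k - 2| = |adj k - (t - 2)| := by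
          rw [← abs_neg]
          congr 1
          ring
        have e2 : |t - adj k + 2| = |adj k - (t + 2)| := by
          rw [← abs_neg]
          congr 1
          ring
        rw [e1, e2]
        ring
    _ ≤ 4 * L * s * (B + B) := by
        gcongr
        · exact hB _
        · exact hB _
    _ = _ := by ring

theorem card_Tn (n : ℕ) : (Fintype.card (T n L) : ℝ) = (L : ℝ) ^ n := by
  simp [Fintype.card_pi, ZMod.card]

/-- one dimension, weak form -/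
theorem cnt1 (t s : ℝ) (hs : 1 / (L : ℝ) ≤ s) (hs1 : s ≤ 1) :
    cnt L 1 t s ≤ 4 * s ^ (1 / 2 : ℝ) * L := by
  have hL : (0 : ℝ) < L := by exact_mod_cast Nat.pos_of_ne_zero (NeZero.ne L)
  have hs0 : 0 < s := lt_of_lt_of_le (by positivity) hs
  rw [cnt_succ]
  have h1 : ∀ k : T 0 L, ((Finset.univ.filter fun j : ZMod L =>
      |a j - (t - adj k)| ≤ s).card : ℝ) ≤ 4 * s ^ (1 / 2 : ℝ) * L := by
    intro k
    refine (count1 (t - adj k) s hs (by linarith)).trans ?_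
    have h2 : s / Real.sqrt (max (mm (t - adj k)) s) ≤ s / Real.sqrt s :=
      div_le_div_of_nonneg_left hs0.le (Real.sqrt_pos.2 hs0)
        (Real.sqrt_le_sqrt (le_max_right _ _))
    have h3 : s / Real.sqrt s = s ^ (1 / 2 : ℝ) := by
      rw [Real.div_sqrt, Real.sqrt_eq_rpow]
    rw [h3] at h2
    calc 4 * L * (s / Real.sqrt (max (mm (t - adj k)) s)) ≤ 4 * L * s ^ (1 / 2 : ℝ) := by gcongr
      _ = _ := by ring
  refine (Finset.sum_le_sum fun k _ => h1 k).trans ?_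
  simp

/-- two dimensions -/
theorem cnt2 (t s : ℝ) (hs : 1 / (L : ℝ) ≤ s) (hs1 : s ≤ 1) :
    cnt L 2 t s ≤ 520 * s ^ (3 / 4 : ℝ) * L ^ 2 := by
  have hL : (0 : ℝ) < L := by exact_mod_cast Nat.pos_of_ne_zero (NeZero.ne L)
  have hs0 : 0 < s := lt_of_lt_of_le (by positivity) hs
  have h1 := step 1 t s hs hs1 (s ^ (-(1 / 4 : ℝ)) * (65 * L)) (fun c => by
    have h2 := dy_conv (fun k : T 1 L => |adj k - c|) s (1 / 4) 4 L hs0 hs1 (by norm_num)
      (by norm_num) (by norm_num) (by rw [card_Tn, pow_one]) (fun r hr hr1 => by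
        have h3 := cnt1 c r (hs.trans hr) hr1
        have e1 : (1 / 4 + 1 / 4 : ℝ) = 1 / 2 := by norm_num
        rw [e1]
        exact h3)
    have h4 : ∀ k : T 1 L, (max |adj k - c| s) ^ (-(1 / 2 : ℝ)) ≤
        s ^ (-(1 / 4 : ℝ)) * (max |adj k - c| s) ^ (-(1 / 4 : ℝ)) := by
      intro k
      have hM : 0 < max |adj k - c| s := lt_of_lt_of_le hs0 (le_max_right _ _)
      have e1 : (max |adj k - c| s) ^ (-(1 / 2 : ℝ)) = (max |adj k - c| s) ^ (-(1 / 4 : ℝ)) *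
          (max |adj k - c| s) ^ (-(1 / 4 : ℝ)) := by
        rw [← Real.rpow_add hM]
        norm_num
      rw [e1]
      apply mul_le_mul_of_nonneg_right _ (Real.rpow_nonneg hM.le _)
      exact Real.rpow_le_rpow_of_nonpos hs0 (le_max_right _ _) (by norm_num)
    refine (Finset.sum_le_sum fun k _ => h4 k).trans ?_
    rw [← Finset.mul_sum]
    apply mul_le_mul_of_nonneg_left _ (Real.rpow_nonneg hs0.le _)
    refine h2.trans (le_of_eq ?_)
    ring)
  refine h1.trans (le_of_eq ?_)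
  have e1 : s * s ^ (-(1 / 4 : ℝ)) = s ^ (3 / 4 : ℝ) := by
    conv_lhs => rw [show s * s ^ (-(1 / 4 : ℝ)) = s ^ (1 : ℝ) * s ^ (-(1 / 4 : ℝ)) by
      rw [Real.rpow_one]]
    rw [← Real.rpow_add hs0]
    norm_num
  calc 8 * L * s * (s ^ (-(1 / 4 : ℝ)) * (65 * L)) = 520 * (s * s ^ (-(1 / 4 : ℝ))) * L ^ 2 := by
        ring
    _ = _ := by rw [e1]

/-- the constant -/
noncomputable def C3 : ℝ := 8 * (1 + 16 * 520)

/-- three dimensions -/
theorem cnt3 (t s : ℝ) (hs : 1 / (L : ℝ) ≤ s) (hs1 : s ≤ 1) :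
    cnt L 3 t s ≤ C3 * s * L ^ 3 := by
  have hL : (0 : ℝ) < L := by exact_mod_cast Nat.pos_of_ne_zero (NeZero.ne L)
  have hs0 : 0 < s := lt_of_lt_of_le (by positivity) hs
  have h1 := step 2 t s hs hs1 ((L : ℝ) ^ 2 * (1 + 16 * 520)) (fun c =>
    dy_conv (fun k : T 2 L => |adj k - c|) s (1 / 2) 520 ((L : ℝ) ^ 2) hs0 hs1 (by norm_num)
      (by norm_num) (by norm_num) (by rw [card_Tn]) (fun r hr hr1 => by
        have h3 := cnt2 c r (hs.trans hr) hr1
        have e1 : (1 / 2 + 1 / 4 : ℝ) = 3 / 4 := by norm_num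
        rw [e1]
        exact h3))
  refine h1.trans (le_of_eq ?_)
  unfold C3
  ring

/-- dimension at least three -/
theorem cntd (d : ℕ) (hd : 3 ≤ d) (t s : ℝ) (hs : 1 / (L : ℝ) ≤ s) (hs1 : s ≤ 1) :
    cnt L d t s ≤ C3 * s * L ^ d := by
  induction d, hd using Nat.le_induction generalizing t with
  | base => exact cnt3 t s hs hs1
  | succ n hn ih =>
    rw [cnt_succ']
    refine (Finset.sum_le_sum fun j _ => ih (t - a j)).trans (le_of_eq ?_)
    simp
    ring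

/-- **the diagonal of `|H₀ - E - i δ|⁻¹`** -/
theorem green (d : ℕ) (hd : 3 ≤ d) (E δ : ℝ) (hδ : 1 / (L : ℝ) ≤ δ) (hδ1 : δ ≤ 1 / 2) :
    (NN d L)⁻¹ * ∑ k : T d L, (Real.sqrt ((adj k - E) ^ 2 + δ ^ 2))⁻¹ ≤
      (2 + 8 * C3) * Real.log (1 / δ) := by
  have hL : (0 : ℝ) < L := by exact_mod_cast Nat.pos_of_ne_zero (NeZero.ne L)
  have hδ0 : 0 < δ := lt_of_lt_of_le (by positivity) hδ
  have hC3 : 0 ≤ C3 := by unfold C3; norm_num
  have h1 := dy_log (fun k : T d L => |adj k - E|) δ C3 (NN d L) hδ0 hδ1 hC3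
    (le_of_eq card_T) (fun r hr hr1 => by
      have := cntd d hd E r (hδ.trans hr) hr1
      exact this)
  have h2 : ∑ k : T d L, (Real.sqrt ((adj k - E) ^ 2 + δ ^ 2))⁻¹ ≤
      ∑ k : T d L, (max |adj k - E| δ)⁻¹ := by
    refine Finset.sum_le_sum fun k _ => ?_
    apply inv_anti₀ (lt_of_lt_of_le hδ0 (le_max_right _ _))
    apply max_le
    · rw [← Real.sqrt_sq_eq_abs]
      apply Real.sqrt_le_sqrt
      nlinarith [sq_nonneg δ]
    · rw [Real.le_sqrt hδ0.le (by positivity)]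
      nlinarith [sq_nonneg (adj k - E)]
  have hN := NN_pos (d := d) (L := L)
  calc (NN d L)⁻¹ * ∑ k : T d L, (Real.sqrt ((adj k - E) ^ 2 + δ ^ 2))⁻¹
      ≤ (NN d L)⁻¹ * (NN d L * ((2 + 8 * C3) * Real.log (1 / δ))) := by
        apply mul_le_mul_of_nonneg_left (h2.trans h1) (inv_nonneg.2 hN.le)
    _ = _ := by rw [← mul_assoc, inv_mul_cancel₀ hN.ne', one_mul]

end Pool.Agent.W788.MFP.Dos
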