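import Pool.Agent.W788.MFP.Form

/-! Pointwise bounds and bounds of the mass in slabs. -/

set_option autoImplicit false
set_option linter.unusedSectionVars false

open scoped BigOperators

namespace Pool.Agent.W788.MFP.Ball

open Pool.Agent.W788.MFP.Four Pool.Agent.W788.MFP.Dos Pool.Agent.W788.MFP.Form

variable {d L : ℕ} [NeZero L]

/-- pointwise bound -/
theorem point (hd : 3 ≤ d) (E δ : ℝ) (hδ : 1 / (L : ℝ) ≤ δ) (hδ1 : δ ≤ 1 / 2)
    (v : T d L → ℝ) (x : T d L) : v x ^ 2 ≤ gg δ * q (J E δ) v := by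
  have hL : (0 : ℝ) < L := by exact_mod_cast Nat.pos_of_ne_zero (NeZero.ne L)
  have hδ0 : 0 < δ := lt_of_lt_of_le (by positivity) hδ
  set ω : T d L → ℝ := fun k => (Real.sqrt (J E δ k))⁻¹ with hω
  have hωe : ∀ k, ω (-k) = ω k := fun k => by simp only [hω, J_neg]
  have hω2 : ∀ k, ω k ^ 2 = (J E δ k)⁻¹ := fun k => by
    simp only [hω, inv_pow]
    rw [Real.sq_sqrt (J_pos E δ hδ0 k).le]
  set r : T d L → ℝ := fun k => Real.sqrt (J E δ k) with hr
  have hre : ∀ k, r (-k) = r k := fun k => by simp only [hr, J_neg]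
  have hr2 : ∀ k, r k ^ 2 = J E δ k := fun k => Real.sq_sqrt (J_pos E δ hδ0 k).le
  have hωr : (fun k => ω k * r k) = fun _ => 1 := by
    funext k
    simp only [hω, hr]
    exact inv_mul_cancel₀ (Real.sqrt_pos.2 (J_pos E δ hδ0 k)).ne'
  have h3 := Op_Op ω r v hωe hre
  rw [hωr, Op_one] at h3
  have h4 : v x = ∑ y, K ω (x - y) * Op r v y := (congrFun h3 x).symm
  have h5 := Finset.sum_mul_sq_le_sq_mul_sq Finset.univ (fun y => K ω (x - y)) (Op r v)
  rw [← h4] at h5
  refine h5.trans ?_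
  have h6 : ∑ y, Op r v y ^ 2 = q (J E δ) v := by
    rw [sum_sq, q_Op _ r v hre]
    simp only [one_mul, hr2]
  rw [h6]
  apply mul_le_mul_of_nonneg_right _ (q_nonneg _ _ fun k => (J_pos E δ hδ0 k).le)
  rw [K_sq ω hωe x]
  simp only [hω2]
  exact green d hd E δ hδ hδ1

/-- average of a symbol in one direction -/
noncomputable def avg (i : Fin d) (m : T d L → ℝ) (k : T d L) : ℝ :=
  (L : ℝ)⁻¹ * ∑ t : ZMod L, m (Function.update k i t)

theorem sum_update (i : Fin d) (F : T d L → ℝ) :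
    ∑ k, ∑ t : ZMod L, F (Function.update k i t) = L * ∑ k, F k := by
  have h1 : ∀ k : T d L, ∑ t : ZMod L, F (Function.update k i t) =
      ∑ t : ZMod L, F (k + Pi.single i t) := by
    intro k
    rw [← Equiv.sum_comp (Equiv.addLeft (k i)) (fun t => F (Function.update k i t))]
    refine Finset.sum_congr rfl fun t _ => ?_
    congr 1
    funext j
    rw [Equiv.coe_addLeft]
    by_cases hj : j = i
    · subst hj
      simp
    · simp [hj]
  rw [Finset.sum_congr rfl fun k _ => h1 k, Finset.sum_comm]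
  have h2 : ∀ t : ZMod L, ∑ k : T d L, F (k + Pi.single i t) = ∑ k, F k := fun t =>
    Equiv.sum_comp (Equiv.addRight (Pi.single i t : T d L)) F
  rw [Finset.sum_congr rfl fun t _ => h2 t]
  simp [ZMod.card]

theorem e_update (i : Fin d) (k x : T d L) (t : ZMod L) (hx : x i = 0) :
    e (Function.update k i t) x = e k x := by
  unfold e
  congr 1
  refine Finset.sum_congr rfl fun j _ => ?_
  by_cases hj : j = i
  · subst hj
    rw [hx]
    simp
  · rw [Function.update_of_ne hj]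

theorem K_avg (i : Fin d) (m : T d L → ℝ) (x : T d L) (hx : x i = 0) :
    K (avg i m) x = K m x := by
  have hL : (L : ℝ) ≠ 0 := by exact_mod_cast NeZero.ne L
  unfold K avg
  have h1 := sum_update i (fun k => m k * (e k x).re)
  simp only [e_update i _ x _ hx] at h1
  have h2 : ∑ k, (L : ℝ)⁻¹ * (∑ t : ZMod L, m (Function.update k i t)) * (e k x).re =
      (L : ℝ)⁻¹ * ∑ k, ∑ t : ZMod L, m (Function.update k i t) * (e k x).re := by
    rw [Finset.mul_sum]
    refine Finset.sum_congr rfl fun k _ => ?_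
    rw [← Finset.sum_mul, mul_assoc]
  rw [h2, h1, ← mul_assoc (L : ℝ)⁻¹, inv_mul_cancel₀ hL, one_mul]

theorem avg_neg (i : Fin d) (m : T d L → ℝ) (hm : ∀ k, m (-k) = m k) (k : T d L) :
    avg i m (-k) = avg i m k := by
  unfold avg
  congr 1
  rw [← Equiv.sum_comp (Equiv.neg (ZMod L)) (fun t => m (Function.update k i t)),
    Finset.sum_congr rfl fun t _ => (hm (Function.update (-k) i t)).symm]
  refine Finset.sum_congr rfl fun t _ => ?_
  congr 1
  funext j
  by_cases hj : j = i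
  · subst hj
    simp
  · simp [hj]

/-- functions on a hyperplane -/
theorem hyper (i : Fin d) (j : ZMod L) (m : T d L → ℝ) (hm : ∀ k, m (-k) = m k) (B : ℝ)
    (hB : ∀ k, avg i m k ≤ B) (g : T d L → ℝ) (hg : ∀ x, x i ≠ j → g x = 0) :
    q m g ≤ B * ∑ x, g x ^ 2 := by
  have h1 : q m g = q (avg i m) g := by
    rw [← sum_mul_Op m g hm, ← sum_mul_Op (avg i m) g (avg_neg i m hm)]
    refine Finset.sum_congr rfl fun x _ => ?_
    unfold Op
    rw [Finset.mul_sum, Finset.mul_sum]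
    refine Finset.sum_congr rfl fun y _ => ?_
    by_cases hx : x i = j
    · by_cases hy : y i = j
      · rw [K_avg i m (x - y) (by rw [Pi.sub_apply, hx, hy, sub_self])]
      · rw [hg y hy]
        simp
    · rw [hg x hx]
      simp
  rw [h1, sum_sq, ← q_const]
  apply q_mono
  intro k
  rw [mul_one]
  exact hB k

/-- functions on a slab -/
theorem slab (i : Fin d) (I : Finset (ZMod L)) (m : T d L → ℝ) (hm : ∀ k, m (-k) = m k)
    (hm0 : ∀ k, 0 ≤ m k) (B : ℝ) (hB : ∀ k, avg i m k ≤ B) (g : T d L → ℝ)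
    (hg : ∀ x, x i ∉ I → g x = 0) :
    q m g ≤ I.card * B * ∑ x, g x ^ 2 := by
  classical
  set gj : ZMod L → T d L → ℝ := fun j x => if x i = j then g x else 0 with hgj
  have h1 : g = fun x => ∑ j ∈ I, gj j x := by
    funext x
    simp only [hgj]
    by_cases hx : x i ∈ I
    · rw [Finset.sum_ite_eq, if_pos hx]
    · rw [hg x hx]
      symm
      refine Finset.sum_eq_zero fun j hj => ?_
      rw [if_neg]
      intro h
      exact hx (h ▸ hj)
  have h2 : q m g ≤ I.card * ∑ j ∈ I, q m (gj j) := by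
    unfold q
    rw [← Finset.mul_sum, Finset.sum_comm, mul_left_comm]
    apply mul_le_mul_of_nonneg_left _ (inv_nonneg.2 NN_pos.le)
    rw [Finset.mul_sum]
    refine Finset.sum_le_sum fun k _ => ?_
    rw [← Finset.mul_sum, mul_left_comm]
    apply mul_le_mul_of_nonneg_left _ (hm0 k)
    have h3 : ft g k = ∑ j ∈ I, ft (gj j) k := by
      conv_lhs => rw [h1]
      rw [ft_sum]
    rw [h3]
    calc ‖∑ j ∈ I, ft (gj j) k‖ ^ 2 ≤ (∑ j ∈ I, ‖ft (gj j) k‖) ^ 2 :=
          pow_le_pow_left₀ (norm_nonneg _) (norm_sum_le _ _) 2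
      _ ≤ I.card * ∑ j ∈ I, ‖ft (gj j) k‖ ^ 2 := sq_sum_le_card_mul_sum_sq
  have h3 : ∀ j, q m (gj j) ≤ B * ∑ x, gj j x ^ 2 := fun j =>
    hyper i j m hm B hB (gj j) (fun x hx => if_neg hx)
  have h4 : ∑ j ∈ I, ∑ x, gj j x ^ 2 ≤ ∑ x, g x ^ 2 := by
    rw [Finset.sum_comm]
    refine Finset.sum_le_sum fun x _ => ?_
    simp only [hgj]
    have h5 : ∀ j, (if x i = j then g x else 0) ^ 2 = if x i = j then g x ^ 2 else 0 := by
      intro j
      split_ifs <;> simp
    simp only [h5]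
    rw [Finset.sum_ite_eq]
    split_ifs
    · exact le_rfl
    · positivity
  have hB0 : 0 ≤ B := by
    refine le_trans ?_ (hB 0)
    unfold avg
    apply mul_nonneg (inv_nonneg.2 (Nat.cast_nonneg _))
    exact Finset.sum_nonneg fun t _ => hm0 _
  calc q m g ≤ I.card * ∑ j ∈ I, q m (gj j) := h2
    _ ≤ I.card * ∑ j ∈ I, B * ∑ x, gj j x ^ 2 := by
        apply mul_le_mul_of_nonneg_left _ (Nat.cast_nonneg _)
        exact Finset.sum_le_sum fun j _ => h3 j
    _ = I.card * B * ∑ j ∈ I, ∑ x, gj j x ^ 2 := by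
        rw [← Finset.mul_sum]
        ring
    _ ≤ I.card * B * ∑ x, g x ^ 2 := by
        exact mul_le_mul_of_nonneg_left h4 (mul_nonneg (Nat.cast_nonneg _) hB0)

theorem Op_symm (m f g : T d L → ℝ) : ∑ x, g x * Op m f x = ∑ x, Op m g x * f x := by
  unfold Op
  simp only [Finset.mul_sum, Finset.sum_mul]
  rw [Finset.sum_comm]
  refine Finset.sum_congr rfl fun x _ => Finset.sum_congr rfl fun y _ => ?_
  have : K m (y - x) = K m (x - y) := by rw [← neg_sub, K_neg]
  rw [this]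
  ring

/-- mass in a slab of a function with restricted momenta -/
theorem mass (i : Fin d) (I : Finset (ZMod L)) (m : T d L → ℝ) (hm : ∀ k, m (-k) = m k)
    (hm0 : ∀ k, 0 ≤ m k) (hm1 : ∀ k, m k ≤ 1) (B : ℝ) (hB : ∀ k, avg i m k ≤ B)
    (f : T d L → ℝ) :
    ∑ x, (if x i ∈ I then Op m f x ^ 2 else 0) ≤ I.card * B * ∑ x, f x ^ 2 := by
  classical
  set g : T d L → ℝ := fun x => if x i ∈ I then Op m f x else 0 with hg
  have h0 : ∑ x, (if x i ∈ I then Op m f x ^ 2 else 0) = ∑ x, g x ^ 2 := by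
    refine Finset.sum_congr rfl fun x _ => ?_
    simp only [hg]
    split_ifs <;> simp
  rw [h0]
  have h1 : ∑ x, g x ^ 2 = ∑ x, g x * Op m f x := by
    refine Finset.sum_congr rfl fun x _ => ?_
    simp only [hg]
    split_ifs <;> ring
  have h2 : ∑ x, Op m g x ^ 2 ≤ I.card * B * ∑ x, g x ^ 2 := by
    have h3 := slab i I m hm hm0 B hB g (fun x hx => if_neg hx)
    refine le_trans ?_ h3
    rw [sum_sq, q_Op _ m g hm]
    apply q_mono
    intro k
    have := hm0 k
    have := hm1 k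
    nlinarith
  have h4 := Finset.sum_mul_sq_le_sq_mul_sq Finset.univ (Op m g) f
  rw [← Op_symm, ← h1] at h4
  have h5 : 0 ≤ ∑ x, g x ^ 2 := Finset.sum_nonneg fun x _ => sq_nonneg _
  have h6 : 0 ≤ ∑ x, f x ^ 2 := Finset.sum_nonneg fun x _ => sq_nonneg _
  rcases h5.eq_or_lt with h7 | h7
  · rw [← h7]
    have hB0 : 0 ≤ B := by
      refine le_trans ?_ (hB 0)
      unfold avg
      apply mul_nonneg (inv_nonneg.2 (Nat.cast_nonneg _))
      exact Finset.sum_nonneg fun t _ => hm0 _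
    exact mul_nonneg (mul_nonneg (Nat.cast_nonneg _) hB0) h6
  · have h8 : (∑ x, g x ^ 2) ^ 2 ≤ (I.card * B * ∑ x, g x ^ 2) * ∑ x, f x ^ 2 :=
      h4.trans (mul_le_mul_of_nonneg_right h2 h6)
    have h9 : (∑ x, g x ^ 2) * (∑ x, g x ^ 2) ≤ (I.card * B * ∑ x, f x ^ 2) * ∑ x, g x ^ 2 := by
      nlinarith
    exact le_of_mul_le_mul_right h9 h7

end Pool.Agent.W788.MFP.Ball
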