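import Pool.Agent.W788.MFP.Ball

/-! Non-critical energies: the mass in a box of an approximate eigenfunction. -/

set_option autoImplicit false
set_option linter.unusedSectionVars false

open scoped BigOperators

namespace Pool.Agent.W788.MFP.Crit

open Pool.Agent.W788.MFP.Four Pool.Agent.W788.MFP.Dos Pool.Agent.W788.MFP.Form
open Pool.Agent.W788.MFP.Ball

variable {d L : ℕ} [NeZero L]

/-- a coordinate in which the velocity is not small -/
def good (c : ℝ) (k : T d L) (i : Fin d) : Prop := |a (k i)| ≤ 2 - c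

/-- existence of a good coordinate -/
theorem exists_good (hd : 1 ≤ d) (E θ s : ℝ) (hθ : 0 < θ)
    (hcrit : ∀ j : ℕ, j ≤ d → θ ≤ |E - (2 * d - 4 * j)|)
    (hs : s ≤ θ / (4 * d)) (k : T d L) (hk : |adj k - E| ≤ s) :
    ∃ i, good (θ / (2 * d)) k i := by
  classical
  have hd0 : (1 : ℝ) ≤ d := by exact_mod_cast hd
  by_contra hcon
  push Not at hcon
  unfold good at hcon
  push Not at hcon
  set c : ℝ := θ / (2 * d) with hc
  set N : Finset (Fin d) := Finset.univ.filter fun i => a (k i) < 0 with hN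
  have hNd : N.card ≤ d := by
    have := Finset.card_le_univ N
    simpa using this
  have h1 : ∀ i, |a (k i) - (if a (k i) < 0 then -2 else 2)| ≤ c := by
    intro i
    have h2 := hcon i
    have h3 := a_abs (k i)
    split_ifs with h
    · rw [abs_of_neg h] at h2 h3
      rw [abs_le]
      constructor <;> linarith
    · rw [abs_of_nonneg (not_lt.1 h)] at h2 h3
      rw [abs_le]
      constructor <;> linarith
  have h2 : ∑ i, (if a (k i) < 0 then (-2 : ℝ) else 2) = 2 * d - 4 * N.card := by
    have h3 : ∀ i, (if a (k i) < 0 then (-2 : ℝ) else 2) =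
        2 - 4 * (if a (k i) < 0 then 1 else 0) := by
      intro i
      split_ifs <;> norm_num
    rw [Finset.sum_congr rfl fun i _ => h3 i, Finset.sum_sub_distrib, ← Finset.mul_sum,
      Finset.sum_boole]
    simp
    ring
  have h3 : |adj k - (2 * d - 4 * N.card)| ≤ d * c := by
    rw [← h2, adj_eq, ← Finset.sum_sub_distrib]
    refine (Finset.abs_sum_le_sum_abs _ _).trans ((Finset.sum_le_sum fun i _ => h1 i).trans ?_)
    simp
  have h4 := hcrit N.card hNd
  have h5 : |E - (2 * d - 4 * N.card)| ≤ s + d * c := by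
    have e1 : E - (2 * d - 4 * (N.card : ℝ)) = -(adj k - E) + (adj k - (2 * d - 4 * N.card)) := by
      ring
    rw [e1]
    refine (abs_add_le _ _).trans ?_
    rw [abs_neg]
    linarith
  have h6 : d * c = θ / 2 := by
    rw [hc]
    field_simp
  have h7 : θ / (4 * d) ≤ θ / 4 := by
    apply div_le_div_of_nonneg_left hθ.le (by norm_num)
    linarith
  linarith

open Classical in
/-- the partition of unity -/
noncomputable def mI (E s c : ℝ) (i : Fin d) (k : T d L) : ℝ :=
  if |adj k - E| ≤ s ∧ good c k i then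
    ((Finset.univ.filter fun j => good c k j).card : ℝ)⁻¹ else 0

open Classical in
/-- the far part -/
noncomputable def mF (E s : ℝ) (k : T d L) : ℝ := if |adj k - E| ≤ s then 0 else 1

theorem good_neg (c : ℝ) (k : T d L) (i : Fin d) : good c (-k) i ↔ good c k i := by
  unfold good
  rw [Pi.neg_apply, a_neg]

theorem mI_neg (E s c : ℝ) (i : Fin d) (k : T d L) : mI E s c i (-k) = mI E s c i k := by
  classical
  unfold mI
  have h1 : (Finset.univ.filter fun j => good c (-k) j) =
      Finset.univ.filter fun j => good c k j :=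
    Finset.filter_congr fun j _ => good_neg c k j
  rw [h1, adj_neg]
  by_cases h : |adj k - E| ≤ s ∧ good c k i
  · rw [if_pos h, if_pos ⟨h.1, (good_neg c k i).2 h.2⟩]
  · rw [if_neg h, if_neg fun hh => h ⟨hh.1, (good_neg c k i).1 hh.2⟩]

theorem mF_neg (E s : ℝ) (k : T d L) : mF E s (-k) = mF E s k := by
  classical
  unfold mF
  rw [adj_neg]

theorem mI_nonneg (E s c : ℝ) (i : Fin d) (k : T d L) : 0 ≤ mI E s c i k := by
  unfold mI
  split_ifs <;> positivity

open Classical in
theorem mI_le (E s c : ℝ) (i : Fin d) (k : T d L) :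
    mI E s c i k ≤ if |adj k - E| ≤ s ∧ good c k i then 1 else 0 := by
  unfold mI
  split_ifs with h
  · apply inv_le_one_of_one_le₀
    have : 0 < (Finset.univ.filter fun j => good c k j).card :=
      Finset.card_pos.2 ⟨i, Finset.mem_filter.2 ⟨Finset.mem_univ _, h.2⟩⟩
    exact_mod_cast this
  · exact le_rfl

theorem mI_le_one (E s c : ℝ) (i : Fin d) (k : T d L) : mI E s c i k ≤ 1 := by
  classical
  refine (mI_le E s c i k).trans ?_
  split_ifs <;> norm_num

theorem sum_part (hd : 1 ≤ d) (E θ s : ℝ) (hθ : 0 < θ)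
    (hcrit : ∀ j : ℕ, j ≤ d → θ ≤ |E - (2 * d - 4 * j)|)
    (hs : s ≤ θ / (4 * d)) (k : T d L) :
    mF E s k + ∑ i, mI E s (θ / (2 * d)) i k = 1 := by
  classical
  unfold mF mI
  by_cases h : |adj k - E| ≤ s
  · rw [if_pos h, zero_add]
    obtain ⟨i0, hi0⟩ := exists_good hd E θ s hθ hcrit hs k h
    have h1 : ∀ i, (if |adj k - E| ≤ s ∧ good (θ / (2 * d)) k i then
        ((Finset.univ.filter fun j => good (θ / (2 * d)) k j).card : ℝ)⁻¹ else 0) =
        (if good (θ / (2 * d)) k i then (1 : ℝ) else 0) *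
        ((Finset.univ.filter fun j => good (θ / (2 * d)) k j).card : ℝ)⁻¹ := by
      intro i
      by_cases hi : good (θ / (2 * d)) k i
      · rw [if_pos ⟨h, hi⟩, if_pos hi, one_mul]
      · rw [if_neg (fun hh => hi hh.2), if_neg hi, zero_mul]
    rw [Finset.sum_congr rfl fun i _ => h1 i, ← Finset.sum_mul, Finset.sum_boole]
    have h2 : 0 < (Finset.univ.filter fun j => good (θ / (2 * d)) k j).card :=
      Finset.card_pos.2 ⟨i0, Finset.mem_filter.2 ⟨Finset.mem_univ _, hi0⟩⟩
    have h3 : ((Finset.univ.filter fun j => good (θ / (2 * d)) k j).card : ℝ) ≠ 0 := by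
      exact_mod_cast h2.ne'
    exact mul_inv_cancel₀ h3
  · rw [if_neg h]
    have h1 : ∀ i, (if |adj k - E| ≤ s ∧ good (θ / (2 * d)) k i then
        ((Finset.univ.filter fun j => good (θ / (2 * d)) k j).card : ℝ)⁻¹ else 0) = 0 := by
      intro i
      rw [if_neg (fun hh => h hh.1)]
    rw [Finset.sum_congr rfl fun i _ => h1 i]
    simp

theorem adj_update (k : T d L) (i : Fin d) (t : ZMod L) :
    adj (Function.update k i t) = a t + (adj k - a (k i)) := by
  classical
  rw [adj_eq, adj_eq, ← Finset.add_sum_erase Finset.univ _ (Finset.mem_univ i),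
    ← Finset.add_sum_erase Finset.univ (fun i => a (k i)) (Finset.mem_univ i)]
  have h1 : ∑ x ∈ Finset.univ.erase i, a (Function.update k i t x) =
      ∑ x ∈ Finset.univ.erase i, a (k x) := by
    refine Finset.sum_congr rfl fun j hj => ?_
    rw [Function.update_of_ne (Finset.ne_of_mem_erase hj)]
  rw [h1, Function.update_self]
  ring

theorem avg_mI (E s c : ℝ) (hs : 1 / (L : ℝ) ≤ s) (hc : 0 < c) (hc1 : c ≤ 2) (hsc : s ≤ c / 2)
    (i : Fin d) (k : T d L) : avg i (mI E s c i) k ≤ 4 * s / Real.sqrt (c / 2) := by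
  classical
  have hL : (0 : ℝ) < L := by exact_mod_cast Nat.pos_of_ne_zero (NeZero.ne L)
  have hs0 : 0 < s := lt_of_lt_of_le (by positivity) hs
  set t0 : ℝ := E - (adj k - a (k i)) with ht0
  have h1 : ∑ t : ZMod L, mI E s c i (Function.update k i t) ≤
      ((Finset.univ.filter fun t : ZMod L => |a t - t0| ≤ s ∧ |a t| ≤ 2 - c).card : ℝ) := by
    rw [← Finset.sum_boole]
    refine Finset.sum_le_sum fun t _ => ?_
    refine (mI_le E s c i _).trans (le_of_eq ?_)
    have e1 : adj (Function.update k i t) - E = a t - t0 := by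
      rw [adj_update, ht0]
      ring
    have e2 : good c (Function.update k i t) i ↔ |a t| ≤ 2 - c := by
      unfold good
      rw [Function.update_self]
    simp only [e1, e2]
  have h2 : ((Finset.univ.filter fun t : ZMod L => |a t - t0| ≤ s ∧ |a t| ≤ 2 - c).card : ℝ) ≤
      4 * L * (s / Real.sqrt (c / 2)) := by
    rcases (Finset.univ.filter fun t : ZMod L => |a t - t0| ≤ s ∧ |a t| ≤ 2 - c).eq_empty_or_nonempty
      with h0 | h0
    · rw [h0]
      simp
      positivity
    · obtain ⟨t, ht⟩ := h0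
      obtain ⟨-, ht1, ht2⟩ := Finset.mem_filter.1 ht
      have h3 : |t0| ≤ 2 - c / 2 := by
        have h5 : t0 = a t - (a t - t0) := by ring
        calc |t0| = |a t - (a t - t0)| := by rw [← h5]
          _ ≤ |a t| + |a t - t0| := abs_sub _ _
          _ ≤ _ := by linarith
      have h4 : c / 2 ≤ max (mm t0) s := by
        refine le_trans ?_ (le_max_left _ _)
        unfold mm
        rw [abs_of_nonpos (by linarith)]
        linarith
      have h5 : ((Finset.univ.filter fun t : ZMod L =>
          |a t - t0| ≤ s ∧ |a t| ≤ 2 - c).card : ℝ) ≤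
          ((Finset.univ.filter fun t : ZMod L => |a t - t0| ≤ s).card : ℝ) := by
        have : (Finset.univ.filter fun t : ZMod L => |a t - t0| ≤ s ∧ |a t| ≤ 2 - c) ⊆
            (Finset.univ.filter fun t : ZMod L => |a t - t0| ≤ s) := by
          intro x hx
          obtain ⟨-, hx1, -⟩ := Finset.mem_filter.1 hx
          exact Finset.mem_filter.2 ⟨Finset.mem_univ _, hx1⟩
        exact_mod_cast Finset.card_le_card this
      refine h5.trans ((count1 t0 s hs (by linarith)).trans ?_)
      have h6 : s / Real.sqrt (max (mm t0) s) ≤ s / Real.sqrt (c / 2) :=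
        div_le_div_of_nonneg_left hs0.le (Real.sqrt_pos.2 (by positivity)) (Real.sqrt_le_sqrt h4)
      gcongr
  unfold avg
  rw [inv_mul_le_iff₀ hL]
  refine (h1.trans h2).trans (le_of_eq ?_)
  ring

/-- **mass in a box** -/
theorem crit (hd : 1 ≤ d) (E θ s δ : ℝ) (hθ : 0 < θ) (hθ1 : θ ≤ 1)
    (hcrit : ∀ j : ℕ, j ≤ d → θ ≤ |E - (2 * d - 4 * j)|) (hs : 1 / (L : ℝ) ≤ s)
    (hs1 : s ≤ θ / (4 * d)) (I : Finset (ZMod L)) (v : T d L → ℝ) :
    ∑ x, (if ∀ i, x i ∈ I then v x ^ 2 else 0) ≤ (d + 1) * (s⁻¹ * q (J E δ) v +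
      d * (I.card * (4 * s / Real.sqrt (θ / (4 * d))) * ∑ x, v x ^ 2)) := by
  classical
  have hL : (0 : ℝ) < L := by exact_mod_cast Nat.pos_of_ne_zero (NeZero.ne L)
  have hs0 : 0 < s := lt_of_lt_of_le (by positivity) hs
  have hd0 : (1 : ℝ) ≤ d := by exact_mod_cast hd
  obtain ⟨c, hc⟩ : ∃ c, c = θ / (2 * d) := ⟨_, rfl⟩
  have hc0 : 0 < c := by rw [hc]; positivity
  have hc2 : c / 2 = θ / (4 * d) := by
    rw [hc]
    field_simp
    norm_num
  have hc1 : c ≤ 2 := by
    rw [hc, div_le_iff₀ (by positivity)]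
    linarith
  have hpart := fun k => sum_part (L := L) hd E θ s hθ hcrit hs1 k
  rw [← hc] at hpart
  have hv : ∀ x, v x = Op (mF E s) v x + ∑ i, Op (mI E s c i) v x := by
    have h1 : v = fun x => Op (mF E s) v x + ∑ i, Op (mI E s c i) v x := by
      apply ft_inj
      intro k
      rw [ft_add, ft_sum, ft_Op _ _ (mF_neg E s)]
      have h2 : ∀ i, ft (Op (mI E s c i) v) k = mI E s c i k * ft v k := fun i =>
        ft_Op _ _ (mI_neg E s c i) k
      rw [Finset.sum_congr rfl fun i _ => h2 i, ← Finset.sum_mul, ← add_mul]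
      have h3 : ((mF E s k : ℂ) + ∑ i, (mI E s c i k : ℂ)) = 1 := by
        have := hpart k
        exact_mod_cast this
      rw [h3, one_mul]
    exact fun x => congrFun h1 x
  have h1 : ∀ x, v x ^ 2 ≤ (d + 1) * (Op (mF E s) v x ^ 2 + ∑ i, Op (mI E s c i) v x ^ 2) := by
    intro x
    have h2 := sq_sum_le_card_mul_sum_sq (s := (Finset.univ : Finset (Option (Fin d))))
      (f := fun o => match o with
        | none => Op (mF E s) v x
        | some i => Op (mI E s c i) v x)
    rw [Fintype.sum_option, Fintype.sum_option, Finset.card_univ, Fintype.card_option,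
      Fintype.card_fin] at h2
    simp only at h2
    rw [← hv x] at h2
    push_cast at h2
    exact h2
  have h2 : ∑ x, (if ∀ i, x i ∈ I then v x ^ 2 else 0) ≤
      (d + 1) * (∑ x, Op (mF E s) v x ^ 2 +
        ∑ i, ∑ x, (if x i ∈ I then Op (mI E s c i) v x ^ 2 else 0)) := by
    rw [Finset.sum_comm, ← Finset.sum_add_distrib, Finset.mul_sum]
    refine Finset.sum_le_sum fun x _ => ?_
    split_ifs with hx
    · refine (h1 x).trans ?_
      apply mul_le_mul_of_nonneg_left _ (by positivity)
      gcongr with i _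
      rw [if_pos (hx i)]
    · apply mul_nonneg (by positivity)
      apply add_nonneg (sq_nonneg _)
      refine Finset.sum_nonneg fun i _ => ?_
      split_ifs
      · positivity
      · exact le_rfl
  refine h2.trans ?_
  apply mul_le_mul_of_nonneg_left _ (by positivity)
  apply add_le_add
  · rw [sum_sq, q_Op _ _ _ (mF_neg E s), ← q_const]
    apply q_mono
    intro k
    rw [one_mul]
    unfold mF
    have hJ := J_ge' E δ k
    split_ifs with h
    · have : 0 ≤ J E δ k := (abs_nonneg _).trans hJ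
      simp
      positivity
    · rw [one_pow, inv_mul_eq_div, le_div_iff₀ hs0]
      linarith [not_le.1 h]
  · have h3 : ∀ i, ∑ x, (if x i ∈ I then Op (mI E s c i) v x ^ 2 else 0) ≤
        I.card * (4 * s / Real.sqrt (θ / (4 * d))) * ∑ x, v x ^ 2 := by
      intro i
      rw [← hc2]
      exact mass i I (mI E s c i) (mI_neg E s c i) (mI_nonneg E s c i) (mI_le_one E s c i) _
        (fun k => avg_mI E s c hs hc0 hc1 (by rw [hc2]; exact hs1) i k) v
    refine (Finset.sum_le_sum fun i _ => h3 i).trans (le_of_eq ?_)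
    simp

end Pool.Agent.W788.MFP.Crit
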