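import Pool.Agent.W788.MFP.Crit
import Pool.Agent.W788.Gen3

/-! From the lattice to a torus: cutting off an eigenfunction. -/

set_option autoImplicit false
set_option linter.unusedSectionVars false

open scoped BigOperators

namespace Pool.Agent.W788.MFP.Cut

open Pool.Agent.W788.MFP.Four Pool.Agent.W788.MFP.Dos Pool.Agent.W788.MFP.Form
open Pool.Agent.W788.MFP.Ball Pool.Agent.W788.MFP.Crit
open Pool.Agent.H4R2.LO (Zd)
open Pool.Agent.H695R3.AN (lf lf_inj lf_add lf_sub)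

variable {d L : ℕ} [NeZero L]

/-- the cutoff -/
noncomputable def φ (ℓ : ℝ) (x : Zd d) : ℝ := max 0 (min 1 (2 - ‖x‖ / ℓ))

theorem φ_nonneg (ℓ : ℝ) (x : Zd d) : 0 ≤ φ ℓ x := le_max_left _ _

theorem φ_le_one (ℓ : ℝ) (x : Zd d) : φ ℓ x ≤ 1 := by
  unfold φ
  exact max_le zero_le_one (min_le_left _ _)

theorem φ_one (ℓ : ℝ) (hℓ : 0 < ℓ) (x : Zd d) (h : ‖x‖ ≤ ℓ) : φ ℓ x = 1 := by
  unfold φ
  have h1 : ‖x‖ / ℓ ≤ 1 := (div_le_one hℓ).2 h
  rw [min_eq_left (by linarith), max_eq_right zero_le_one]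

theorem φ_zero (ℓ : ℝ) (hℓ : 0 < ℓ) (x : Zd d) (h : 2 * ℓ ≤ ‖x‖) : φ ℓ x = 0 := by
  unfold φ
  have h1 : 2 ≤ ‖x‖ / ℓ := (le_div_iff₀ hℓ).2 h
  rw [min_eq_right (by linarith), max_eq_left (by linarith)]

theorem maxmin (A B : ℝ) : |max 0 (min 1 A) - max 0 (min 1 B)| ≤ |A - B| := by
  have h2 : ∀ a b : ℝ, |max 0 a - max 0 b| ≤ |a - b| := by
    intro a b
    have h := abs_max_sub_max_le_max 0 a 0 b
    rw [sub_self, abs_zero] at h
    exact h.trans (max_le (abs_nonneg _) le_rfl)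
  have h3 : ∀ a b : ℝ, |min 1 a - min 1 b| ≤ |a - b| := by
    intro a b
    have h := abs_min_sub_min_le_max 1 a 1 b
    rw [sub_self, abs_zero] at h
    exact h.trans (max_le (abs_nonneg _) le_rfl)
  exact (h2 _ _).trans (h3 _ _)

theorem φ_lip (ℓ : ℝ) (hℓ : 0 < ℓ) (x y : Zd d) (h : ‖x - y‖ ≤ 1) :
    |φ ℓ x - φ ℓ y| ≤ 1 / ℓ := by
  unfold φ
  have h1 : |(2 - ‖x‖ / ℓ) - (2 - ‖y‖ / ℓ)| ≤ 1 / ℓ := by
    have e1 : (2 - ‖x‖ / ℓ) - (2 - ‖y‖ / ℓ) = -((‖x‖ - ‖y‖) / ℓ) := by ring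
    rw [e1, abs_neg, abs_div, abs_of_pos hℓ]
    apply div_le_div_of_nonneg_right _ hℓ.le
    exact (abs_norm_sub_norm_le x y).trans h
  exact (maxmin _ _).trans h1

theorem norm_single (i : Fin d) : ‖(Pi.single i 1 : Zd d)‖ ≤ 1 := by
  rw [pi_norm_le_iff_of_nonneg zero_le_one]
  intro j
  by_cases h : j = i
  · subst h
    rw [Pi.single_eq_same]
    simp
  · rw [Pi.single_eq_of_ne h]
    simp

theorem coord (y : T d L) (M : ℝ) (h : ‖lf y‖ ≤ M) (i : Fin d) :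
    (((y i).valMinAbs).natAbs : ℝ) ≤ M := by
  have h1 := norm_le_pi_norm (lf y) i
  rw [← Pool.Agent.H4R2.LO.Em.natAbs_norm] at h1
  exact h1.trans h

/-- one step -/
theorem step (ℓ : ℝ) (hℓ : 0 < ℓ) (hL : 4 * ℓ + 4 < L) (u : Zd d → ℝ) (y : T d L) (i : Fin d) :
    |φ ℓ (lf (y + Pi.single i 1)) * u (lf (y + Pi.single i 1)) -
        φ ℓ (lf y) * u (lf y + Pi.single i 1)| ≤ 1 / ℓ * |u (lf y + Pi.single i 1)| ∧
    |φ ℓ (lf (y - Pi.single i 1)) * u (lf (y - Pi.single i 1)) -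
        φ ℓ (lf y) * u (lf y - Pi.single i 1)| ≤ 1 / ℓ * |u (lf y - Pi.single i 1)| := by
  have h1 := norm_single i
  by_cases h : ‖lf y‖ ≤ 2 * ℓ + 1
  · rw [lf_add y (2 * ℓ + 1) (coord y _ h) (by linarith) i,
      lf_sub y (2 * ℓ + 1) (coord y _ h) (by linarith) i, ← sub_mul, ← sub_mul, abs_mul, abs_mul]
    constructor
    · apply mul_le_mul_of_nonneg_right _ (abs_nonneg _)
      apply φ_lip ℓ hℓ
      rw [add_sub_cancel_left]
      exact h1
    · apply mul_le_mul_of_nonneg_right _ (abs_nonneg _)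
      apply φ_lip ℓ hℓ
      rw [sub_sub_cancel_left, norm_neg]
      exact h1
  · push Not at h
    have h0 : φ ℓ (lf y) = 0 := φ_zero ℓ hℓ _ (by linarith)
    rw [h0]
    constructor
    · have h2 : φ ℓ (lf (y + Pi.single i 1)) = 0 := by
        apply φ_zero ℓ hℓ
        by_contra hcon
        push Not at hcon
        have h3 := lf_sub (y + Pi.single i 1) (2 * ℓ) (coord _ _ hcon.le) (by linarith) i
        rw [add_sub_cancel_right] at h3
        rw [h3] at h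
        have h4 := norm_sub_le (lf (y + Pi.single i 1)) (Pi.single i 1)
        linarith
      rw [h2]
      simp
      positivity
    · have h2 : φ ℓ (lf (y - Pi.single i 1)) = 0 := by
        apply φ_zero ℓ hℓ
        by_contra hcon
        push Not at hcon
        have h3 := lf_add (y - Pi.single i 1) (2 * ℓ) (coord _ _ hcon.le) (by linarith) i
        rw [sub_add_cancel] at h3
        rw [h3] at h
        have h4 := norm_add_le (lf (y - Pi.single i 1)) (Pi.single i 1)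
        linarith
      rw [h2]
      simp
      positivity

theorem sum_lf (F : Zd d → ℝ) (hF : ∀ x, 0 ≤ F x) (hs : Summable F) :
    ∑ y : T d L, F (lf y) ≤ ∑' x, F x := by
  rw [← tsum_fintype (L := .unconditional _)]
  exact tsum_comp_le_tsum_of_inj hs hF lf_inj

/-- **cutting off** -/
theorem cut (hd : 1 ≤ d) (σ E δ t ℓ : ℝ) (hδ : 0 < δ) (ht : 0 ≤ t) (hσ : 0 ≤ σ)
    (hσt : σ * t ≤ 1 / 2) (hℓ : 2 * d ≤ δ * ℓ) (hL : 4 * ℓ + 4 < L) (ω u : Zd d → ℝ)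
    (hu : Summable fun x => u x ^ 2)
    (heq : ∀ x, ∑ i, (u (x + Pi.single i 1) + u (x - Pi.single i 1)) + σ * ω x * u x = E * u x)
    (hf : ∀ w : T d L → ℝ, |∑ x, ω (lf x) * w x ^ 2| ≤ t * q (J E δ) w) :
    q (J E δ) (fun y : T d L => φ ℓ (lf y) * u (lf y)) ≤ 4 * δ * ∑' x, u x ^ 2 := by
  have hd0 : (1 : ℝ) ≤ d := by exact_mod_cast hd
  have hℓ0 : 0 < ℓ := by
    by_contra hcon
    push Not at hcon
    have := mul_nonpos_of_nonneg_of_nonpos hδ.le hcon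
    linarith
  obtain ⟨v, hv⟩ : ∃ v : T d L → ℝ, v = fun y => φ ℓ (lf y) * u (lf y) := ⟨_, rfl⟩
  rw [← hv]
  obtain ⟨r, hr⟩ : ∃ r : T d L → ℝ, r = fun y => ∑ i : Fin d,
    ((φ ℓ (lf (y + Pi.single i 1)) * u (lf (y + Pi.single i 1)) -
        φ ℓ (lf y) * u (lf y + Pi.single i 1)) +
     (φ ℓ (lf (y - Pi.single i 1)) * u (lf (y - Pi.single i 1)) -
        φ ℓ (lf y) * u (lf y - Pi.single i 1))) := ⟨_, rfl⟩
  have hvr : ∀ x, Op (fun k => adj k - E) v x = -(σ * ω (lf x) * v x) + r x := by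
    intro x
    rw [Op_adj]
    simp only [hv, hr]
    have h1 := heq (lf x)
    have h2 : ∑ i : Fin d,
        ((φ ℓ (lf (x + Pi.single i 1)) * u (lf (x + Pi.single i 1)) -
            φ ℓ (lf x) * u (lf x + Pi.single i 1)) +
         (φ ℓ (lf (x - Pi.single i 1)) * u (lf (x - Pi.single i 1)) -
            φ ℓ (lf x) * u (lf x - Pi.single i 1))) =
        ∑ i : Fin d, (φ ℓ (lf (x + Pi.single i 1)) * u (lf (x + Pi.single i 1)) +
          φ ℓ (lf (x - Pi.single i 1)) * u (lf (x - Pi.single i 1))) -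
        φ ℓ (lf x) * ∑ i : Fin d, (u (lf x + Pi.single i 1) + u (lf x - Pi.single i 1)) := by
      rw [Finset.mul_sum, ← Finset.sum_sub_distrib]
      exact Finset.sum_congr rfl fun i _ => by ring
    rw [h2]
    have h3 : φ ℓ (lf x) * ∑ i : Fin d, (u (lf x + Pi.single i 1) + u (lf x - Pi.single i 1)) =
        φ ℓ (lf x) * (E * u (lf x) - σ * ω (lf x) * u (lf x)) := by
      rw [← h1]
      ring
    rw [h3]
    ring
  have h1 := eig E δ t σ hδ ht hσ hσt (fun x => ω (lf x)) v r hf hvr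
  have hS0 : 0 ≤ ∑' x, u x ^ 2 := tsum_nonneg fun x => sq_nonneg _
  have h2 : ∑ x, v x ^ 2 ≤ ∑' x, u x ^ 2 := by
    refine le_trans (Finset.sum_le_sum fun x _ => ?_)
      (sum_lf (L := L) (fun x => u x ^ 2) (fun x => sq_nonneg _) hu)
    rw [hv]
    simp only
    rw [mul_pow]
    apply mul_le_of_le_one_left (sq_nonneg _)
    exact pow_le_one₀ (φ_nonneg _ _) (φ_le_one _ _)
  have hplus : ∀ i : Fin d, ∑ y : T d L, u (lf y + Pi.single i 1) ^ 2 ≤ ∑' x, u x ^ 2 := by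
    intro i
    have h5 : Summable (fun x : Zd d => u (x + Pi.single i 1) ^ 2) :=
      (Equiv.addRight (Pi.single i 1 : Zd d)).summable_iff.2 hu
    refine (sum_lf (L := L) (fun x => u (x + Pi.single i 1) ^ 2) (fun x => sq_nonneg _) h5).trans ?_
    exact le_of_eq ((Equiv.addRight (Pi.single i 1 : Zd d)).tsum_eq fun x => u x ^ 2)
  have hminus : ∀ i : Fin d, ∑ y : T d L, u (lf y - Pi.single i 1) ^ 2 ≤ ∑' x, u x ^ 2 := by
    intro i
    have h5 : Summable (fun x : Zd d => u (x - Pi.single i 1) ^ 2) :=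
      (Equiv.subRight (Pi.single i 1 : Zd d)).summable_iff.2 hu
    refine (sum_lf (L := L) (fun x => u (x - Pi.single i 1) ^ 2) (fun x => sq_nonneg _) h5).trans ?_
    exact le_of_eq ((Equiv.subRight (Pi.single i 1 : Zd d)).tsum_eq fun x => u x ^ 2)
  have h3 : ∑ x, r x ^ 2 ≤ (2 * d / ℓ) ^ 2 * ∑' x, u x ^ 2 := by
    have h4 : ∀ y, r y ^ 2 ≤ d * ∑ i : Fin d, (2 * (1 / ℓ) ^ 2 * (u (lf y + Pi.single i 1) ^ 2 +
        u (lf y - Pi.single i 1) ^ 2)) := by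
      intro y
      rw [hr]
      simp only
      refine sq_sum_le_card_mul_sum_sq.trans ?_
      rw [Finset.card_univ, Fintype.card_fin]
      apply mul_le_mul_of_nonneg_left _ (by positivity)
      refine Finset.sum_le_sum fun i _ => ?_
      obtain ⟨s1, s2⟩ := step ℓ hℓ0 hL u y i
      obtain ⟨A, hA⟩ : ∃ A, A = φ ℓ (lf (y + Pi.single i 1)) * u (lf (y + Pi.single i 1)) -
        φ ℓ (lf y) * u (lf y + Pi.single i 1) := ⟨_, rfl⟩
      obtain ⟨B, hB⟩ : ∃ B, B = φ ℓ (lf (y - Pi.single i 1)) * u (lf (y - Pi.single i 1)) -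
        φ ℓ (lf y) * u (lf y - Pi.single i 1) := ⟨_, rfl⟩
      rw [← hA] at s1
      rw [← hB] at s2
      rw [← hA, ← hB]
      have e1 : A ^ 2 ≤ (1 / ℓ) ^ 2 * u (lf y + Pi.single i 1) ^ 2 := by
        rw [← sq_abs A, ← sq_abs (u (lf y + Pi.single i 1)), ← mul_pow]
        exact pow_le_pow_left₀ (abs_nonneg _) s1 2
      have e2 : B ^ 2 ≤ (1 / ℓ) ^ 2 * u (lf y - Pi.single i 1) ^ 2 := by
        rw [← sq_abs B, ← sq_abs (u (lf y - Pi.single i 1)), ← mul_pow]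
        exact pow_le_pow_left₀ (abs_nonneg _) s2 2
      have e3 : (A + B) ^ 2 ≤ 2 * (A ^ 2 + B ^ 2) := add_sq_le
      linarith
    refine (Finset.sum_le_sum fun y _ => h4 y).trans ?_
    rw [← Finset.mul_sum, Finset.sum_comm]
    have h5 : ∀ i : Fin d, ∑ y : T d L, (2 * (1 / ℓ) ^ 2 * (u (lf y + Pi.single i 1) ^ 2 +
        u (lf y - Pi.single i 1) ^ 2)) ≤ 4 * (1 / ℓ) ^ 2 * ∑' x, u x ^ 2 := by
      intro i
      rw [← Finset.mul_sum, Finset.sum_add_distrib]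
      have h6 := hplus i
      have h7 := hminus i
      calc 2 * (1 / ℓ) ^ 2 * (∑ y : T d L, u (lf y + Pi.single i 1) ^ 2 +
            ∑ y : T d L, u (lf y - Pi.single i 1) ^ 2) ≤
          2 * (1 / ℓ) ^ 2 * (∑' x, u x ^ 2 + ∑' x, u x ^ 2) := by gcongr
        _ = _ := by ring
    calc (d : ℝ) * ∑ i : Fin d, ∑ y : T d L, (2 * (1 / ℓ) ^ 2 * (u (lf y + Pi.single i 1) ^ 2 +
          u (lf y - Pi.single i 1) ^ 2)) ≤
        d * ∑ i : Fin d, (4 * (1 / ℓ) ^ 2 * ∑' x, u x ^ 2) := by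
          apply mul_le_mul_of_nonneg_left _ (by positivity)
          exact Finset.sum_le_sum fun i _ => h5 i
      _ = _ := by
        rw [Finset.sum_const, Finset.card_univ, Fintype.card_fin, nsmul_eq_mul]
        ring
  have h4 : 2 * d / ℓ ≤ δ := by
    rw [div_le_iff₀ hℓ0]
    exact hℓ
  have h5 : ∑ x, r x ^ 2 ≤ δ ^ 2 * ∑' x, u x ^ 2 := by
    refine h3.trans (mul_le_mul_of_nonneg_right ?_ hS0)
    exact pow_le_pow_left₀ (by positivity) h4 2
  calc q (J E δ) v ≤ 3 * δ * ∑ x, v x ^ 2 + δ⁻¹ * ∑ x, r x ^ 2 := h1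
    _ ≤ 3 * δ * ∑' x, u x ^ 2 + δ⁻¹ * (δ ^ 2 * ∑' x, u x ^ 2) := by gcongr
    _ = _ := by
      field_simp
      ring

end Pool.Agent.W788.MFP.Cut
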