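import Pool.Agent.W788.MFP.Four

/-! Counting momenta in an energy shell: one dimension. -/

set_option autoImplicit false
set_option linter.unusedSectionVars false

open scoped BigOperators

namespace Pool.Agent.W788.MFP.Dos

open Pool.Agent.W788.MFP.Four

variable {L : ℕ} [NeZero L]

/-- `2 cos (2 π j / L)` -/
noncomputable def a (j : ZMod L) : ℝ := 2 * (ZMod.stdAddChar j : ℂ).re

theorem a_eq (j : ZMod L) : a j = 2 * Real.cos (2 * Real.pi * j.val / L) := by
  unfold a
  have h1 : ((j.val : ℤ) : ZMod L) = j := by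
    rw [Int.cast_natCast, ZMod.natCast_zmod_val]
  conv_lhs => rw [← h1]
  rw [ZMod.stdAddChar_coe]
  have h2 : (2 * Real.pi * Complex.I * ((j.val : ℤ) : ℂ) / (L : ℂ)) =
      ((2 * Real.pi * j.val / L : ℝ) : ℂ) * Complex.I := by
    push_cast
    ring
  rw [h2, Complex.exp_ofReal_mul_I_re]

theorem a_neg (j : ZMod L) : a (-j) = a j := by
  unfold a
  rw [ZMod.stdAddChar_apply, ZMod.stdAddChar_apply, AddChar.map_neg_eq_inv]
  simp

theorem a_abs (j : ZMod L) : |a j| ≤ 2 := by
  rw [a_eq, abs_mul, abs_of_pos (by norm_num : (0 : ℝ) < 2)]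
  have := Real.abs_cos_le_one (2 * Real.pi * j.val / L)
  linarith

/-- the distance of `|t|` to `2` -/
noncomputable def mm (t : ℝ) : ℝ := |(|t| - 2)|

theorem trig (θ θ' t s : ℝ) (h0 : 0 ≤ θ) (h1 : θ ≤ θ') (h2 : θ' ≤ Real.pi)
    (hθ : |2 * Real.cos θ - t| ≤ s) (hθ' : |2 * Real.cos θ' - t| ≤ s) (hs : 0 < s) :
    θ' - θ ≤ Real.pi * (s / Real.sqrt (max (mm t) s)) := by
  have hpi := Real.pi_pos
  obtain ⟨x, hx⟩ : ∃ x, x = (θ' - θ) / 2 := ⟨_, rfl⟩
  obtain ⟨y, hy⟩ : ∃ y, y = (θ + θ') / 2 := ⟨_, rfl⟩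
  have hx0 : 0 ≤ x := by rw [hx]; linarith
  have hx1 : x ≤ Real.pi / 2 := by rw [hx]; linarith
  have hxy : x ≤ y := by rw [hx, hy]; linarith
  have hyx : y ≤ Real.pi - x := by rw [hx, hy]; linarith
  have hsx : 2 / Real.pi * x ≤ Real.sin x := Real.mul_le_sin hx0 hx1
  have hsx0 : 0 ≤ 2 / Real.pi * x := by positivity
  have hsy : Real.sin x ≤ Real.sin y := by
    rcases le_total y (Real.pi / 2) with h | h
    · exact Real.sin_le_sin_of_le_of_le_pi_div_two (by linarith) h hxy
    · rw [← Real.sin_pi_sub y]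
      exact Real.sin_le_sin_of_le_of_le_pi_div_two (by linarith) (by linarith) (by linarith)
  have hsy0 : 0 ≤ Real.sin y := by linarith
  have hdiff : 2 * Real.cos θ - 2 * Real.cos θ' = 4 * Real.sin y * Real.sin x := by
    have h3 := Real.cos_sub_cos θ θ'
    have h4 : (θ - θ') / 2 = -x := by rw [hx]; ring
    rw [h4, Real.sin_neg, ← hy] at h3
    linarith
  have hle : 4 * Real.sin y * Real.sin x ≤ 2 * s := by
    rw [← hdiff]
    have := abs_le.1 hθ
    have := abs_le.1 hθ'
    linarith
  have hkey : ∀ c : ℝ, 0 < c → c ≤ Real.sin y → x ≤ Real.pi * s / (4 * c) := by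
    intro c hc hcy
    rw [le_div_iff₀ (by positivity)]
    have h3 : 4 * c * (2 / Real.pi * x) ≤ 2 * s := by
      calc 4 * c * (2 / Real.pi * x) ≤ 4 * Real.sin y * Real.sin x := by gcongr
        _ ≤ 2 * s := hle
    have h4 : 4 * c * (2 / Real.pi * x) = (8 * c * x) / Real.pi := by ring
    rw [h4, div_le_iff₀ hpi] at h3
    linarith
  have hm0 : 0 ≤ mm t := abs_nonneg _
  have hxx : θ' - θ = 2 * x := by rw [hx]; ring
  rw [hxx]
  rcases le_or_gt s (mm t / 2) with hc | hc
  · -- away from the edges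
    have hmpos : 0 < mm t := by linarith
    have hmax : max (mm t) s = mm t := max_eq_left (by linarith)
    rw [hmax]
    have habs : ∀ φ, |2 * Real.cos φ - t| ≤ s → 2 - |2 * Real.cos φ| ≥ mm t / 2 := by
      intro φ hφ
      have h3 : |2 * Real.cos φ| ≤ 2 := by
        rw [abs_mul, abs_of_pos (by norm_num : (0 : ℝ) < 2)]
        have := Real.abs_cos_le_one φ
        linarith
      have h4 : |t| ≤ |2 * Real.cos φ| + s := by
        have h5 : t = 2 * Real.cos φ - (2 * Real.cos φ - t) := by ring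
        calc |t| = |2 * Real.cos φ - (2 * Real.cos φ - t)| := by rw [← h5]
          _ ≤ |2 * Real.cos φ| + |2 * Real.cos φ - t| := abs_sub _ _
          _ ≤ _ := by linarith
      have h6 : |2 * Real.cos φ| ≤ |t| + s := by
        have h5 : 2 * Real.cos φ = (2 * Real.cos φ - t) + t := by ring
        calc |2 * Real.cos φ| = |(2 * Real.cos φ - t) + t| := by rw [← h5]
          _ ≤ |2 * Real.cos φ - t| + |t| := abs_add_le _ _
          _ ≤ _ := by linarith
      have h7 : mm t = |(|t| - 2)| := rfl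
      rcases le_total |t| 2 with h8 | h8
      · rw [abs_of_nonpos (by linarith)] at h7
        linarith
      · rw [abs_of_nonneg (by linarith)] at h7
        linarith
    have hsin : ∀ φ, 0 ≤ φ → φ ≤ Real.pi → |2 * Real.cos φ - t| ≤ s →
        Real.sqrt (mm t) / 2 ≤ Real.sin φ := by
      intro φ hφ0 hφ1 hφ
      have h3 := habs φ hφ
      have h4 : 0 ≤ Real.sin φ := Real.sin_nonneg_of_nonneg_of_le_pi hφ0 hφ1
      have h5 : (Real.sqrt (mm t) / 2) ^ 2 ≤ Real.sin φ ^ 2 := by
        rw [div_pow, Real.sq_sqrt hm0]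
        have h6 : (2 * Real.cos φ) ^ 2 = |2 * Real.cos φ| ^ 2 := (sq_abs _).symm
        have h7 := Real.sin_sq_add_cos_sq φ
        have h8 := abs_nonneg (2 * Real.cos φ)
        have h9 : |2 * Real.cos φ| ^ 2 ≤ 4 - mm t := by nlinarith
        nlinarith
      exact (pow_le_pow_iff_left₀ (by positivity) h4 two_ne_zero).1 h5
    have hy2 : Real.sqrt (mm t) / 2 ≤ Real.sin y := by
      have h3 := hsin θ h0 (by linarith) hθ
      have h4 := hsin θ' (by linarith) h2 hθ'
      have h5 : Real.sin θ + Real.sin θ' = 2 * Real.sin y * Real.cos x := by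
        have e1 : θ = y - x := by rw [hx, hy]; ring
        have e2 : θ' = y + x := by rw [hx, hy]; ring
        rw [e1, e2, Real.sin_sub, Real.sin_add]
        ring
      have h6 : 0 ≤ Real.sin y := by linarith
      have h7 := Real.cos_le_one x
      nlinarith
    have h3 := hkey (Real.sqrt (mm t) / 2) (by positivity) hy2
    calc 2 * x ≤ 2 * (Real.pi * s / (4 * (Real.sqrt (mm t) / 2))) := by linarith
      _ = Real.pi * (s / Real.sqrt (mm t)) := by
          have : 0 < Real.sqrt (mm t) := Real.sqrt_pos.2 hmpos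
          field_simp
          norm_num
  · have h3 : x ^ 2 ≤ Real.pi ^ 2 * s / 8 := by
      have h4 : 4 * (2 / Real.pi * x) * (2 / Real.pi * x) ≤ 2 * s := by
        calc 4 * (2 / Real.pi * x) * (2 / Real.pi * x) ≤ 4 * Real.sin y * Real.sin x := by
              have := hsx.trans hsy
              gcongr
          _ ≤ 2 * s := hle
      have h5 : 4 * (2 / Real.pi * x) * (2 / Real.pi * x) = 16 * x ^ 2 / Real.pi ^ 2 := by
        field_simp
        ring
      rw [h5, div_le_iff₀ (by positivity)] at h4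
      linarith
    have hmax : max (mm t) s ≤ 2 * s := max_le (by linarith) (by linarith)
    have hmaxpos : 0 < max (mm t) s := lt_of_lt_of_le hs (le_max_right _ _)
    have h6 : (2 * x) ^ 2 ≤ (Real.pi * (s / Real.sqrt (max (mm t) s))) ^ 2 := by
      rw [mul_pow, mul_pow, div_pow, Real.sq_sqrt hmaxpos.le]
      have h7 : s / 2 ≤ s ^ 2 / max (mm t) s := by
        rw [div_le_div_iff₀ (by norm_num) hmaxpos]
        nlinarith
      calc 2 ^ 2 * x ^ 2 ≤ 2 ^ 2 * (Real.pi ^ 2 * s / 8) := by linarith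
        _ = Real.pi ^ 2 * (s / 2) := by ring
        _ ≤ _ := by gcongr
    exact (pow_le_pow_iff_left₀ (by positivity) (by positivity) two_ne_zero).1 h6

/-- a finite set of integers with bounded diameter -/
theorem card_diam (S : Finset ℕ) (D : ℝ) (hD : 0 ≤ D)
    (h : ∀ m ∈ S, ∀ n ∈ S, m ≤ n → (n : ℝ) - m ≤ D) : (S.card : ℝ) ≤ D + 1 := by
  rcases S.eq_empty_or_nonempty with h0 | h0
  · rw [h0]
    simp
    linarith
  · have h1 := S.min'_mem h0
    have h2 := S.max'_mem h0
    have h3 := h _ h1 _ h2 (S.min'_le_max' h0)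
    have h4 : S ⊆ Finset.Icc (S.min' h0) (S.max' h0) := fun n hn =>
      Finset.mem_Icc.2 ⟨S.min'_le n hn, S.le_max' n hn⟩
    have h5 := Finset.card_le_card h4
    rw [Nat.card_Icc] at h5
    have h6 := S.min'_le_max' h0
    have h7 : (S.card : ℝ) ≤ (S.max' h0 : ℝ) - S.min' h0 + 1 := by
      have h8 : S.card + S.min' h0 ≤ S.max' h0 + 1 := by omega
      have h9 : (S.card : ℝ) + S.min' h0 ≤ S.max' h0 + 1 := by exact_mod_cast h8
      linarith
    linarith

/-- the one-dimensional count -/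
theorem count1 (t s : ℝ) (hs : 1 / (L : ℝ) ≤ s) (hs2 : s ≤ 2) :
    ((Finset.univ.filter fun j : ZMod L => |a j - t| ≤ s).card : ℝ) ≤
      4 * L * (s / Real.sqrt (max (mm t) s)) := by
  classical
  have hL : (0 : ℝ) < L := by exact_mod_cast Nat.pos_of_ne_zero (NeZero.ne L)
  have hs0 : 0 < s := lt_of_lt_of_le (by positivity) hs
  have hpi := Real.pi_pos
  set β : ℝ := s / Real.sqrt (max (mm t) s) with hβ
  have hmaxpos : 0 < max (mm t) s := lt_of_lt_of_le hs0 (le_max_right _ _)
  have hβ0 : 0 < β := by positivity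
  set S := Finset.univ.filter fun j : ZMod L => |a j - t| ≤ s with hS
  rcases S.eq_empty_or_nonempty with h0 | h0
  · rw [h0]
    simp
    positivity
  -- the two halves
  set S1 := S.filter fun j => 2 * j.val ≤ L with hS1
  set S2 := S.filter fun j => ¬ 2 * j.val ≤ L with hS2
  have hcard : S.card = S1.card + S2.card := (Finset.card_filter_add_card_filter_not _).symm
  have h21 : S2.card ≤ S1.card := by
    apply Finset.card_le_card_of_injOn (fun j => -j)
    · intro j hj
      have hj' := Finset.mem_filter.1 (Finset.mem_coe.1 hj)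
      have hj1 := (Finset.mem_filter.1 hj'.1).2
      apply Finset.mem_coe.2
      refine Finset.mem_filter.2 ⟨Finset.mem_filter.2 ⟨Finset.mem_univ _, ?_⟩, ?_⟩
      · rw [a_neg]
        exact hj1
      · rw [ZMod.neg_val]
        split_ifs <;> omega
    · intro x _ y _ h
      exact neg_injective h
  have h1 : (S1.card : ℝ) ≤ β * L / 2 + 1 := by
    have e1 : (S1.image ZMod.val).card = S1.card :=
      Finset.card_image_of_injective _ (ZMod.val_injective L)
    rw [← e1]
    apply card_diam _ _ (by positivity)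
    intro m hm n hn hmn
    obtain ⟨j, hj, rfl⟩ := Finset.mem_image.1 hm
    obtain ⟨j', hj', rfl⟩ := Finset.mem_image.1 hn
    have hj1 := Finset.mem_filter.1 hj
    have hj1' := Finset.mem_filter.1 hj'
    have hj2 := (Finset.mem_filter.1 hj1.1).2
    have hj2' := (Finset.mem_filter.1 hj1'.1).2
    rw [a_eq] at hj2 hj2'
    have hmn' : (j.val : ℝ) ≤ j'.val := by exact_mod_cast hmn
    have hh : 2 * (j'.val : ℝ) ≤ L := by exact_mod_cast hj1'.2
    have h3 := trig (2 * Real.pi * j.val / L) (2 * Real.pi * j'.val / L) t s (by positivity)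
      (by gcongr) (by
        rw [div_le_iff₀ hL]
        nlinarith) hj2 hj2' hs0
    rw [← hβ] at h3
    have h4 : 2 * Real.pi * (j'.val : ℝ) / L - 2 * Real.pi * j.val / L =
        (2 * Real.pi / L) * ((j'.val : ℝ) - j.val) := by ring
    rw [h4, div_mul_eq_mul_div, div_le_iff₀ hL] at h3
    nlinarith
  -- nonempty
  have hmax2 : max (mm t) s ≤ 2 := by
    apply max_le _ hs2
    obtain ⟨j, hj⟩ := h0
    have hj2 := (Finset.mem_filter.1 hj).2
    have h3 := a_abs j
    have h4 : |t| ≤ |a j| + s := by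
      have h5 : t = a j - (a j - t) := by ring
      calc |t| = |a j - (a j - t)| := by rw [← h5]
        _ ≤ |a j| + |a j - t| := abs_sub _ _
        _ ≤ _ := by linarith
    unfold mm
    rw [abs_le]
    constructor
    · linarith [abs_nonneg t]
    · linarith
  have hβL : 1 / 2 ≤ β * L / Real.sqrt 2 := by
    have h3 : Real.sqrt (max (mm t) s) ≤ Real.sqrt 2 := Real.sqrt_le_sqrt hmax2
    have h4 : 1 ≤ s * L := by
      rwa [div_le_iff₀ hL] at hs
    have h5 : s / Real.sqrt 2 ≤ β := by
      rw [hβ]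
      apply div_le_div_of_nonneg_left hs0.le (by positivity) h3
    have h6 : Real.sqrt 2 * Real.sqrt 2 = 2 := Real.mul_self_sqrt (by norm_num)
    have h7 : 0 < Real.sqrt 2 := by positivity
    rw [le_div_iff₀ h7]
    have h8 : s / Real.sqrt 2 * L ≤ β * L := by gcongr
    refine le_trans ?_ h8
    have h9 : s / Real.sqrt 2 * L = s * L / Real.sqrt 2 := by ring
    rw [h9, le_div_iff₀ h7]
    have h10 : 1 / 2 * Real.sqrt 2 * Real.sqrt 2 = 1 := by
      rw [mul_assoc, h6]
      norm_num
    linarith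
  have hfin : 1 ≤ 3 / 2 * (β * L) := by
    have h7 : 0 < Real.sqrt 2 := by positivity
    rw [le_div_iff₀ h7] at hβL
    have h8 : (4 / 3 : ℝ) ≤ Real.sqrt 2 := by
      rw [Real.le_sqrt (by norm_num) (by norm_num)]
      norm_num
    nlinarith
  have h2 : (S.card : ℝ) ≤ 2 * S1.card := by
    have : S.card ≤ 2 * S1.card := by omega
    exact_mod_cast this
  calc (S.card : ℝ) ≤ 2 * (β * L / 2 + 1) := by linarith
    _ = β * L + 2 := by ring
    _ ≤ 4 * L * β := by nlinarith

end Pool.Agent.W788.MFP.Dos
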