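import Mathlib

/-! Real Fourier multipliers on the discrete torus. -/

set_option autoImplicit false
set_option linter.unusedSectionVars false

open scoped BigOperators

namespace Pool.Agent.W788.MFP.Four

variable {d L : ℕ} [NeZero L]

/-- the discrete torus -/
abbrev T (d L : ℕ) : Type := Fin d → ZMod L

/-- the character `exp (2 π i k·x / L)` -/
noncomputable def e (k x : T d L) : ℂ := ZMod.stdAddChar (∑ i, k i * x i)

theorem e_comm (k x : T d L) : e k x = e x k := by
  unfold e
  congr 1
  exact Finset.sum_congr rfl fun i _ => mul_comm _ _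

theorem e_add_left (k l x : T d L) : e (k + l) x = e k x * e l x := by
  unfold e
  rw [← AddChar.map_add_eq_mul]
  congr 1
  rw [← Finset.sum_add_distrib]
  exact Finset.sum_congr rfl fun i _ => by simp only [Pi.add_apply]; ring

theorem e_add (k x y : T d L) : e k (x + y) = e k x * e k y := by
  rw [e_comm, e_add_left, e_comm x, e_comm y]

theorem e_zero (k : T d L) : e k 0 = 1 := by
  unfold e
  simp

theorem e_neg (k x : T d L) : e k (-x) = (starRingEnd ℂ) (e k x) := by
  have h : e k (-x) = (ZMod.stdAddChar (-(∑ i, k i * x i)) : ℂ) := by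
    unfold e
    congr 1
    rw [← Finset.sum_neg_distrib]
    exact Finset.sum_congr rfl fun i _ => by simp only [Pi.neg_apply]; ring
  rw [h]
  unfold e
  rw [ZMod.stdAddChar_apply, ZMod.stdAddChar_apply, AddChar.map_neg_eq_inv,
    Circle.coe_inv_eq_conj]

theorem e_neg_left (k x : T d L) : e (-k) x = (starRingEnd ℂ) (e k x) := by
  rw [e_comm, e_neg, e_comm]

theorem e_normSq (k x : T d L) : e k x * (starRingEnd ℂ) (e k x) = 1 := by
  rw [← e_neg, ← e_add, add_neg_cancel, e_zero]

/-- the number of points -/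
noncomputable def NN (d L : ℕ) : ℝ := (L : ℝ) ^ d

theorem NN_pos : 0 < NN d L := by
  unfold NN
  have : (0 : ℝ) < L := by exact_mod_cast Nat.pos_of_ne_zero (NeZero.ne L)
  positivity

theorem card_T : (Fintype.card (T d L) : ℝ) = NN d L := by
  unfold NN
  simp [Fintype.card_pi, ZMod.card]

theorem sum_e (x : T d L) : ∑ k, e k x = if x = 0 then (NN d L : ℂ) else 0 := by
  split_ifs with h
  · subst h
    simp only [e_zero]
    rw [Finset.sum_const, Finset.card_univ, nsmul_eq_mul, mul_one]
    rw [← card_T]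
    push_cast
    rfl
  · obtain ⟨i, hi⟩ : ∃ i, x i ≠ 0 := by
      by_contra hcon
      push Not at hcon
      exact h (funext hcon)
    set k0 : T d L := Pi.single i 1 with hk0
    have h1 : e k0 x ≠ 1 := by
      unfold e
      have h2 : ∑ j, k0 j * x j = x i := by
        rw [Finset.sum_eq_single i]
        · simp [hk0]
        · intro j _ hj
          simp [hk0, Pi.single_eq_of_ne hj]
        · intro hcon
          exact absurd (Finset.mem_univ i) hcon
      rw [h2]
      intro h3
      apply hi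
      apply ZMod.injective_stdAddChar
      rw [h3, AddChar.map_zero_eq_one]
    have h2 : ∑ k, e k x = e k0 x * ∑ k, e k x := by
      conv_lhs => rw [← Equiv.sum_comp (Equiv.addLeft k0) (fun k => e k x)]
      rw [Finset.mul_sum]
      exact Finset.sum_congr rfl fun k _ => by rw [Equiv.coe_addLeft, e_add_left]
    have h3 : (e k0 x - 1) * ∑ k, e k x = 0 := by
      rw [sub_mul, one_mul, ← h2, sub_self]
    rcases mul_eq_zero.1 h3 with h4 | h4
    · exact absurd (sub_eq_zero.1 h4) h1
    · exact h4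

/-- Fourier coefficients of real functions -/
noncomputable def ft (f : T d L → ℝ) (k : T d L) : ℂ := ∑ x, (f x : ℂ) * e k x

theorem ft_add (f g : T d L → ℝ) (k : T d L) : ft (fun x => f x + g x) k = ft f k + ft g k := by
  unfold ft
  rw [← Finset.sum_add_distrib]
  exact Finset.sum_congr rfl fun x _ => by push_cast; ring

theorem ft_sum {α : Type*} (s : Finset α) (f : α → T d L → ℝ) (k : T d L) :
    ft (fun x => ∑ a ∈ s, f a x) k = ∑ a ∈ s, ft (f a) k := by
  unfold ft
  rw [Finset.sum_comm]
  refine Finset.sum_congr rfl fun x _ => ?_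
  push_cast
  rw [Finset.sum_mul]

/-- Plancherel -/
theorem planch (f g : T d L → ℝ) :
    ∑ x, f x * g x = (NN d L)⁻¹ * ∑ k, (ft f k * (starRingEnd ℂ) (ft g k)).re := by
  have h1 : ∑ k, ft f k * (starRingEnd ℂ) (ft g k) = ((NN d L * ∑ x, f x * g x : ℝ) : ℂ) := by
    have h2 : ∀ k, ft f k * (starRingEnd ℂ) (ft g k) =
        ∑ x, ∑ y, (f x : ℂ) * g y * e k (x - y) := by
      intro k
      unfold ft
      rw [map_sum, Finset.sum_mul_sum]
      refine Finset.sum_congr rfl fun x _ => Finset.sum_congr rfl fun y _ => ?_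
      rw [map_mul, Complex.conj_ofReal, ← e_neg, sub_eq_add_neg, e_add]
      ring
    simp only [h2]
    rw [Finset.sum_comm]
    have h3 : ∀ x, ∑ k, ∑ y, (f x : ℂ) * g y * e k (x - y) = (NN d L : ℂ) * (f x * g x) := by
      intro x
      rw [Finset.sum_comm]
      have h4 : ∀ y, ∑ k, (f x : ℂ) * g y * e k (x - y) =
          (f x : ℂ) * g y * (if x - y = 0 then (NN d L : ℂ) else 0) := by
        intro y
        rw [← Finset.mul_sum, sum_e]
      simp only [h4]
      rw [Finset.sum_eq_single x]
      · simp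
        ring
      · intro y _ hy
        rw [if_neg (sub_ne_zero.2 hy.symm), mul_zero]
      · intro h
        exact absurd (Finset.mem_univ x) h
    simp only [h3]
    push_cast
    rw [Finset.mul_sum]
  have h2 : ∑ k, (ft f k * (starRingEnd ℂ) (ft g k)).re = NN d L * ∑ x, f x * g x := by
    rw [← Complex.re_sum, h1, Complex.ofReal_re]
  rw [h2, ← mul_assoc, inv_mul_cancel₀ NN_pos.ne', one_mul]

theorem ft_inj (f g : T d L → ℝ) (h : ∀ k, ft f k = ft g k) : f = g := by
  have h1 := planch (fun x => f x - g x) (fun x => f x - g x)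
  have h2 : ∀ k, ft (fun x => f x - g x) k = 0 := by
    intro k
    have h3 : ft (fun x => f x - g x) k = ft f k - ft g k := by
      unfold ft
      rw [← Finset.sum_sub_distrib]
      exact Finset.sum_congr rfl fun x _ => by push_cast; ring
    rw [h3, h k, sub_self]
  simp only [h2] at h1
  simp only [zero_mul, Complex.zero_re, Finset.sum_const_zero, mul_zero] at h1
  funext x
  have h4 := (Finset.sum_eq_zero_iff_of_nonneg (fun x _ => mul_self_nonneg (f x - g x))).1 h1 x
    (Finset.mem_univ x)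
  have h5 := mul_self_eq_zero.1 h4
  linarith

/-- the kernel with symbol `m` -/
noncomputable def K (m : T d L → ℝ) (x : T d L) : ℝ := (NN d L)⁻¹ * ∑ k, m k * (e k x).re

/-- the operator with symbol `m` -/
noncomputable def Op (m f : T d L → ℝ) (x : T d L) : ℝ := ∑ y, K m (x - y) * f y

theorem ft_K (m : T d L → ℝ) (hm : ∀ k, m (-k) = m k) (k : T d L) : ft (K m) k = m k := by
  unfold ft K
  have h1 : ∀ x, (((NN d L)⁻¹ * ∑ l, m l * (e l x).re : ℝ) : ℂ) * e k x =
      (NN d L : ℂ)⁻¹ * ∑ l, (m l : ℂ) * (1 / 2 * e (l + k) x + 1 / 2 * e (-l + k) x) := by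
    intro x
    push_cast
    rw [mul_assoc, Finset.sum_mul]
    congr 1
    refine Finset.sum_congr rfl fun l _ => ?_
    rw [e_add_left, e_add_left, e_neg_left]
    have h2 : ((e l x).re : ℂ) = 1 / 2 * (e l x + (starRingEnd ℂ) (e l x)) := by
      rw [Complex.add_conj]
      push_cast
      ring
    rw [h2]
    ring
  simp only [h1]
  rw [← Finset.mul_sum, Finset.sum_comm]
  have h3 : ∀ l, ∑ x, (m l : ℂ) * (1 / 2 * e (l + k) x + 1 / 2 * e (-l + k) x) =
      (m l : ℂ) * (1 / 2 * (if l + k = 0 then (NN d L : ℂ) else 0) +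
        1 / 2 * (if -l + k = 0 then (NN d L : ℂ) else 0)) := by
    intro l
    rw [← Finset.mul_sum, Finset.sum_add_distrib, ← Finset.mul_sum, ← Finset.mul_sum]
    have h5 : ∀ z : T d L, ∑ x, e z x = if z = 0 then (NN d L : ℂ) else 0 := fun z => by
      rw [Finset.sum_congr rfl fun x _ => e_comm z x]
      exact sum_e z
    rw [h5, h5]
  rw [Finset.sum_congr rfl fun l _ => h3 l]
  simp only [mul_add]
  rw [Finset.sum_add_distrib]
  have h6 : ∑ l, (m l : ℂ) * (1 / 2 * (if l + k = 0 then (NN d L : ℂ) else 0)) =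
      1 / 2 * m k * NN d L := by
    rw [Finset.sum_eq_single (-k)]
    · rw [if_pos (neg_add_cancel k), hm]
      ring
    · intro l _ hl
      rw [if_neg (fun h => hl (eq_neg_of_add_eq_zero_left h))]
      ring
    · intro h
      exact absurd (Finset.mem_univ _) h
  have h7 : ∑ l, (m l : ℂ) * (1 / 2 * (if -l + k = 0 then (NN d L : ℂ) else 0)) =
      1 / 2 * m k * NN d L := by
    rw [Finset.sum_eq_single k]
    · rw [if_pos (neg_add_cancel k)]
      ring
    · intro l _ hl
      rw [if_neg (fun h => hl (by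
        have := eq_neg_of_add_eq_zero_right h
        rw [neg_neg] at this
        exact this.symm))]
      ring
    · intro h
      exact absurd (Finset.mem_univ _) h
  have hN : (NN d L : ℂ) ≠ 0 := by exact_mod_cast (NN_pos (d := d) (L := L)).ne'
  rw [h6, h7]
  field_simp
  ring

theorem ft_Op (m f : T d L → ℝ) (hm : ∀ k, m (-k) = m k) (k : T d L) :
    ft (Op m f) k = m k * ft f k := by
  have h1 : ft (Op m f) k = ∑ y, (f y : ℂ) * e k y * ∑ x, (K m (x - y) : ℂ) * e k (x - y) := by
    unfold ft Op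
    push_cast
    simp only [Finset.sum_mul, Finset.mul_sum]
    rw [Finset.sum_comm]
    refine Finset.sum_congr rfl fun y _ => Finset.sum_congr rfl fun x _ => ?_
    have : e k x = e k (x - y) * e k y := by rw [← e_add, sub_add_cancel]
    rw [this]
    ring
  rw [h1]
  have h2 : ∀ y, ∑ x, (K m (x - y) : ℂ) * e k (x - y) = m k := by
    intro y
    have h3 := Equiv.sum_comp (Equiv.subRight y) (fun x => (K m x : ℂ) * e k x)
    exact h3.trans (ft_K m hm k)
  simp only [h2]
  unfold ft
  rw [Finset.mul_sum]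
  exact Finset.sum_congr rfl fun x _ => by ring

/-- the quadratic form with symbol `m` -/
noncomputable def q (m f : T d L → ℝ) : ℝ := (NN d L)⁻¹ * ∑ k, m k * ‖ft f k‖ ^ 2

theorem re_conj (a b : ℝ) (z : ℂ) : ((a * z) * (starRingEnd ℂ) (b * z)).re = a * b * ‖z‖ ^ 2 := by
  rw [map_mul, Complex.conj_ofReal]
  have : (a : ℂ) * z * (b * (starRingEnd ℂ) z) = ((a * b : ℝ) : ℂ) * (z * (starRingEnd ℂ) z) := by
    push_cast; ring
  rw [this, Complex.mul_conj, Complex.normSq_eq_norm_sq, ← Complex.ofReal_mul, Complex.ofReal_re]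

/-- `∑ (Op m f) (Op n f) = q (m n) f` -/
theorem sum_Op (m n f : T d L → ℝ) (hm : ∀ k, m (-k) = m k) (hn : ∀ k, n (-k) = n k) :
    ∑ x, Op m f x * Op n f x = q (fun k => m k * n k) f := by
  rw [planch]
  unfold q
  congr 1
  refine Finset.sum_congr rfl fun k _ => ?_
  rw [ft_Op m f hm, ft_Op n f hn, re_conj]

theorem q_Op (m n f : T d L → ℝ) (hn : ∀ k, n (-k) = n k) :
    q m (Op n f) = q (fun k => m k * n k ^ 2) f := by
  unfold q
  congr 1
  refine Finset.sum_congr rfl fun k _ => ?_
  rw [ft_Op n f hn, norm_mul, mul_pow, Complex.norm_real, Real.norm_eq_abs, sq_abs]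
  ring

theorem Op_Op (m n f : T d L → ℝ) (hm : ∀ k, m (-k) = m k) (hn : ∀ k, n (-k) = n k) :
    Op m (Op n f) = Op (fun k => m k * n k) f := by
  apply ft_inj
  intro k
  rw [ft_Op m _ hm, ft_Op n _ hn, ft_Op _ _ (fun k => by simp only [hm k, hn k])]
  push_cast
  ring

theorem Op_one (f : T d L → ℝ) : Op (fun _ => 1) f = f := by
  apply ft_inj
  intro k
  rw [ft_Op _ _ fun _ => rfl]
  simp

theorem sum_sq (f : T d L → ℝ) : ∑ x, f x ^ 2 = q (fun _ => 1) f := by
  have h := sum_Op (fun _ => 1) (fun _ => 1) f (fun _ => rfl) (fun _ => rfl)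
  rw [Op_one] at h
  simp only [mul_one] at h
  rw [← h]
  exact Finset.sum_congr rfl fun x _ => by ring

theorem sum_mul_Op (m f : T d L → ℝ) (hm : ∀ k, m (-k) = m k) :
    ∑ x, f x * Op m f x = q m f := by
  have h := sum_Op (fun _ => 1) m f (fun _ => rfl) hm
  rw [Op_one] at h
  simp only [one_mul] at h
  exact h

theorem q_mono (m n f : T d L → ℝ) (h : ∀ k, m k ≤ n k) : q m f ≤ q n f := by
  unfold q
  apply mul_le_mul_of_nonneg_left _ (inv_nonneg.2 NN_pos.le)
  exact Finset.sum_le_sum fun k _ => mul_le_mul_of_nonneg_right (h k) (by positivity)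

theorem q_nonneg (m f : T d L → ℝ) (h : ∀ k, 0 ≤ m k) : 0 ≤ q m f := by
  unfold q
  apply mul_nonneg (inv_nonneg.2 NN_pos.le)
  exact Finset.sum_nonneg fun k _ => mul_nonneg (h k) (by positivity)

theorem q_const (c : ℝ) (m f : T d L → ℝ) : q (fun k => c * m k) f = c * q m f := by
  unfold q
  simp only [Finset.mul_sum]
  exact Finset.sum_congr rfl fun k _ => by ring

theorem q_add (m n f : T d L → ℝ) : q (fun k => m k + n k) f = q m f + q n f := by
  unfold q
  rw [← mul_add, ← Finset.sum_add_distrib]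
  congr 1
  exact Finset.sum_congr rfl fun k _ => by ring

theorem K_neg (m : T d L → ℝ) (x : T d L) : K m (-x) = K m x := by
  unfold K
  congr 1
  refine Finset.sum_congr rfl fun k _ => ?_
  rw [e_neg, Complex.conj_re]

/-- the square norm of the kernel -/
theorem K_sq (m : T d L → ℝ) (hm : ∀ k, m (-k) = m k) (x : T d L) :
    ∑ y, K m (x - y) ^ 2 = (NN d L)⁻¹ * ∑ k, m k ^ 2 := by
  have h1 : ∑ y, K m (x - y) ^ 2 = ∑ y, K m y ^ 2 :=
    Equiv.sum_comp (Equiv.subLeft x) (fun y => K m y ^ 2)
  have h2 := planch (K m) (K m)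
  rw [h1]
  have h3 : ∑ y, K m y ^ 2 = ∑ y, K m y * K m y := Finset.sum_congr rfl fun y _ => by ring
  rw [h3, h2]
  congr 1
  refine Finset.sum_congr rfl fun k _ => ?_
  rw [ft_K m hm, Complex.conj_ofReal, ← Complex.ofReal_mul, Complex.ofReal_re]
  ring

/-- the symbol of the adjacency operator -/
noncomputable def adj (k : T d L) : ℝ := ∑ i, 2 * (ZMod.stdAddChar (k i) : ℂ).re

theorem adj_neg (k : T d L) : adj (-k) = adj k := by
  unfold adj
  refine Finset.sum_congr rfl fun i _ => ?_
  rw [Pi.neg_apply, ZMod.stdAddChar_apply, ZMod.stdAddChar_apply, AddChar.map_neg_eq_inv]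
  simp

theorem ft_shift (f : T d L → ℝ) (a k : T d L) :
    ft (fun x => f (x + a)) k = (starRingEnd ℂ) (e k a) * ft f k := by
  unfold ft
  rw [Finset.mul_sum, ← Equiv.sum_comp (Equiv.addRight a)
    (fun x => (starRingEnd ℂ) (e k a) * ((f x : ℂ) * e k x))]
  refine Finset.sum_congr rfl fun x _ => ?_
  rw [Equiv.coe_addRight, e_add]
  have := e_normSq k a
  linear_combination (-(f (x + a) : ℂ) * e k x) * this

theorem e_single (k : T d L) (i : Fin d) : e k (Pi.single i 1) = ZMod.stdAddChar (k i) := by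
  unfold e
  congr 1
  rw [Finset.sum_eq_single i]
  · simp
  · intro j _ hj
    simp [Pi.single_eq_of_ne hj]
  · intro hcon
    exact absurd (Finset.mem_univ i) hcon

/-- the adjacency operator -/
theorem Op_adj (E : ℝ) (f : T d L → ℝ) :
    Op (fun k => adj k - E) f = fun x => ∑ i, (f (x + Pi.single i 1) + f (x - Pi.single i 1)) -
      E * f x := by
  apply ft_inj
  intro k
  rw [ft_Op _ _ fun k => by rw [adj_neg]]
  have h1 : ft (fun x => ∑ i, (f (x + Pi.single i 1) + f (x - Pi.single i 1)) - E * f x) k =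
      ft (fun x => ∑ i, (f (x + Pi.single i 1) + f (x - Pi.single i 1))) k - E * ft f k := by
    unfold ft
    rw [Finset.mul_sum, ← Finset.sum_sub_distrib]
    exact Finset.sum_congr rfl fun x _ => by push_cast; ring
  rw [h1, ft_sum]
  have h2 : ∀ i : Fin d, ft (fun x => f (x + Pi.single i 1) + f (x - Pi.single i 1)) k =
      (2 * (ZMod.stdAddChar (k i) : ℂ).re : ℝ) * ft f k := by
    intro i
    rw [ft_add, ft_shift]
    simp only [sub_eq_add_neg]
    rw [ft_shift f (-Pi.single i 1), e_neg, e_single, Complex.conj_conj, ← add_mul]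
    congr 1
    rw [add_comm, Complex.add_conj]
  simp only [h2]
  unfold adj
  push_cast
  rw [sub_mul, Finset.sum_mul]

end Pool.Agent.W788.MFP.Four
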