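import Mathlib

/-! Gaussian integration by parts for polynomials. -/

set_option autoImplicit false

open scoped BigOperators ENNReal NNReal
open MeasureTheory ProbabilityTheory

namespace Pool.Agent.W788.MFP.Gm

/-- the standard Gaussian -/
noncomputable abbrev γ : Measure ℝ := gaussianReal 0 1

theorem pdf_eq (x : ℝ) : gaussianPDFReal 0 1 x = (Real.sqrt (2 * Real.pi))⁻¹ * Real.exp (-(1 / 2) * x ^ 2) := by
  rw [gaussianPDFReal_def]
  simp only [NNReal.coe_one, sub_zero, mul_one]
  congr 2
  ring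

theorem int_mono (n : ℕ) : Integrable (fun x : ℝ => x ^ n * gaussianPDFReal 0 1 x) := by
  have h := integrable_rpow_mul_exp_neg_mul_sq (b := 1 / 2) (by norm_num) (s := (n : ℝ))
    (by have : (0 : ℝ) ≤ n := Nat.cast_nonneg n; linarith)
  simp only [Real.rpow_natCast] at h
  refine (h.const_mul ((Real.sqrt (2 * Real.pi))⁻¹)).congr (Filter.Eventually.of_forall fun x => ?_)
  simp only
  rw [pdf_eq]
  ring

theorem int_pow (n : ℕ) : Integrable (fun x : ℝ => x ^ n) γ := by
  have h : MemLp (id : ℝ → ℝ) (n : ℝ≥0∞) γ := memLp_id_gaussianReal' _ (by simp)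
  by_cases hn : n = 0
  · subst hn
    simp
  · have h2 := h.integrable_norm_pow' 
    refine (h2).mono' (by fun_prop) (Filter.Eventually.of_forall fun x => ?_)
    simp

theorem moment_eq (n : ℕ) : ∫ x, x ^ n ∂γ = ∫ x : ℝ, x ^ n * gaussianPDFReal 0 1 x := by
  rw [integral_gaussianReal_eq_integral_smul (by norm_num)]
  refine integral_congr_ae (Filter.Eventually.of_forall fun x => ?_)
  simp only [smul_eq_mul]
  ring

/-- the moment recursion -/
theorem rec (n : ℕ) : ∫ x, x ^ (n + 1) ∂γ = n * ∫ x, x ^ (n - 1) ∂γ := by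
  rw [moment_eq, moment_eq]
  have h := integral_mul_deriv_eq_deriv_mul_of_integrable (u := fun x : ℝ => x ^ n)
    (v := gaussianPDFReal 0 1) (u' := fun x : ℝ => n * x ^ (n - 1))
    (v' := fun x : ℝ => -(x * gaussianPDFReal 0 1 x)) (fun x _ => hasDerivAt_pow n x) (fun x _ => by
      have h1 : gaussianPDFReal 0 1 = fun x : ℝ => (Real.sqrt (2 * Real.pi))⁻¹ *
        Real.exp (-(1 / 2) * x ^ 2) := funext pdf_eq
      rw [h1]
      have h2 : HasDerivAt (fun x : ℝ => -(1 / 2) * x ^ 2) (-(1 / 2) * (2 * x)) x := by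
        have := (hasDerivAt_pow 2 x).const_mul (-(1 / 2 : ℝ))
        simpa using this
      have h3 := (h2.exp).const_mul ((Real.sqrt (2 * Real.pi))⁻¹)
      refine h3.congr_deriv ?_
      ring) ?_ ?_ ?_
  · have e1 : ∫ x : ℝ, x ^ n * -(x * gaussianPDFReal 0 1 x) =
        -∫ x : ℝ, x ^ (n + 1) * gaussianPDFReal 0 1 x := by
      rw [← integral_neg]
      refine integral_congr_ae (Filter.Eventually.of_forall fun x => ?_)
      simp only
      ring
    have e2 : ∫ x : ℝ, (n * x ^ (n - 1)) * gaussianPDFReal 0 1 x =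
        n * ∫ x : ℝ, x ^ (n - 1) * gaussianPDFReal 0 1 x := by
      rw [← integral_const_mul]
      refine integral_congr_ae (Filter.Eventually.of_forall fun x => ?_)
      simp only
      ring
    rw [e1, e2] at h
    linarith
  · refine (int_mono (n + 1)).neg.congr (Filter.Eventually.of_forall fun x => ?_)
    simp only [Pi.neg_apply, Pi.mul_apply]
    ring
  · refine ((int_mono (n - 1)).const_mul (n : ℝ)).congr (Filter.Eventually.of_forall fun x => ?_)
    simp only [Pi.mul_apply]
    ring
  · exact int_mono n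

variable {κ : Type*} [Fintype κ]

/-- product Gaussian -/
noncomputable abbrev Γ (κ : Type*) [Fintype κ] : Measure (κ → ℝ) := Measure.pi fun _ : κ => γ

theorem eval_mono (u : κ →₀ ℕ) (a : ℝ) (ξ : κ → ℝ) :
    MvPolynomial.eval ξ (MvPolynomial.monomial u a) = a * ∏ y, ξ y ^ u y := by
  rw [MvPolynomial.eval_monomial, Finsupp.prod_fintype _ _ fun _ => pow_zero _]

theorem int_poly (p : MvPolynomial κ ℝ) : Integrable (fun ξ => MvPolynomial.eval ξ p) (Γ κ) := by
  induction p using MvPolynomial.induction_on' with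
  | monomial u a =>
    simp only [eval_mono]
    exact (Integrable.fintype_prod (f := fun y (t : ℝ) => t ^ u y) fun y => int_pow _).const_mul a
  | add p q hp hq =>
    simp only [map_add]
    exact hp.add hq

theorem integral_mono (u : κ →₀ ℕ) (a : ℝ) :
    ∫ ξ, MvPolynomial.eval ξ (MvPolynomial.monomial u a) ∂(Γ κ) = a * ∏ y, ∫ t, t ^ u y ∂γ := by
  simp only [eval_mono]
  rw [integral_const_mul, integral_fintype_prod_eq_prod (fun y (t : ℝ) => t ^ u y)]

/-- integration by parts -/
theorem ibp [DecidableEq κ] (p : MvPolynomial κ ℝ) (x : κ) :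
    ∫ ξ, ξ x * MvPolynomial.eval ξ p ∂(Γ κ) =
      ∫ ξ, MvPolynomial.eval ξ (MvPolynomial.pderiv x p) ∂(Γ κ) := by
  have key : ∫ ξ, MvPolynomial.eval ξ (MvPolynomial.X x * p) ∂(Γ κ) =
      ∫ ξ, MvPolynomial.eval ξ (MvPolynomial.pderiv x p) ∂(Γ κ) := by
    induction p using MvPolynomial.induction_on' with
    | monomial u a =>
      have e1 : (MvPolynomial.X x * MvPolynomial.monomial u a : MvPolynomial κ ℝ) =
          MvPolynomial.monomial (Finsupp.single x 1 + u) a := by
        rw [MvPolynomial.X, MvPolynomial.monomial_mul, one_mul]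
      rw [e1, MvPolynomial.pderiv_monomial, integral_mono, integral_mono]
      obtain ⟨u', hu'⟩ : ∃ u' : κ →₀ ℕ, u' = u - Finsupp.single x 1 := ⟨_, rfl⟩
      obtain ⟨u1, hu1⟩ : ∃ u1 : κ →₀ ℕ, u1 = Finsupp.single x 1 + u := ⟨_, rfl⟩
      rw [← hu', ← hu1, ← Finset.mul_prod_erase Finset.univ (fun y => ∫ t, t ^ u1 y ∂γ)
          (Finset.mem_univ x), ← Finset.mul_prod_erase Finset.univ (fun y => ∫ t, t ^ u' y ∂γ)
          (Finset.mem_univ x)]
      have e2 : u1 x = u x + 1 := by
        rw [hu1]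
        simp [add_comm]
      have e3 : u' x = u x - 1 := by
        rw [hu']
        simp
      have e4 : ∏ y ∈ Finset.univ.erase x, ∫ t, t ^ u1 y ∂γ =
          ∏ y ∈ Finset.univ.erase x, ∫ t, t ^ u' y ∂γ := by
        refine Finset.prod_congr rfl fun y hy => ?_
        have hne : x ≠ y := (Finset.ne_of_mem_erase hy).symm
        rw [hu', hu1]
        simp [Finsupp.single_apply, hne]
      rw [e2, e3, e4, rec]
      ring
    | add p q hp hq =>
      rw [mul_add, map_add]
      simp only [map_add]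
      rw [integral_add (int_poly _) (int_poly _), integral_add (int_poly _) (int_poly _), hp, hq]
  rw [← key]
  simp

end Pool.Agent.W788.MFP.Gm
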